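import Pool.Agent.Helper92_Refl.Perm

/-!
# FINORD
-/

namespace Pool.Agent.Refl.H92

open Matrix Pool.Agent.Refl

variable {G : M4} {n : ℕ} {e : Fin n → Z4} {O : R4}

/-- a vector orthogonal to all facet roots is zero -/
theorem eq_zero_of_orth (h : Lat G) (hC : Cham G n e O) {x : R4}
    (hx : ∀ i, br G x (up (e i)) = 0) : x = 0 := by
  obtain ⟨c, hc, hcpt⟩ := hC.cpt
  have hO := hC.Oneg
  by_cases h1 : br G x O = 0
  · by_contra hne
    have h2 := hcpt x (fun i => (hx i).le)
    have h3 := h.pos hO h1 hne
    rw [h1] at h2
    nlinarith
  · -- `y = O + t x` is orthogonal to `O`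
    set t : ℝ := -(br G O O / br G x O) with ht
    have h2 : ∀ i, br G (O + t • x) (up (e i)) ≤ 0 := by
      intro i
      rw [br_add_left, br_smul_left, hx i, mul_zero, add_zero]
      exact (hC.neg i).le
    have h3 : br G (O + t • x) O = 0 := by
      rw [br_add_left, br_smul_left, ht]
      field_simp
      ring
    have h4 := hcpt _ h2
    rw [h3] at h4
    have h5 : O + t • x = 0 := by
      by_contra hne
      have := h.pos hO h3 hne
      nlinarith
    rcases Nat.eq_zero_or_pos n with h0 | h0
    · subst h0
      -- the cone is everything: contradiction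
      exfalso
      have h6 : ∃ w : R4, w ≠ 0 ∧ br G w O = 0 := by
        have h7 : O ≠ 0 := by
          rintro rfl
          simp at hO
        by_contra hcon
        push Not at hcon
        -- all `w` orthogonal to `O` vanish, so everything is a multiple of `O`
        have h8 : ∀ v : R4, v = (br G v O / br G O O) • O := by
          intro v
          by_contra hv
          have h9 : v - (br G v O / br G O O) • O ≠ 0 := sub_ne_zero.2 hv
          apply hcon _ h9
          rw [br_sub_left, br_smul_left]
          have := hO.ne
          field_simp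
          ring
        have h10 := h8 (Pi.single 0 1)
        have h11 := h8 (Pi.single 1 1)
        have e1 := congrFun h10 0
        have e2 := congrFun h10 1
        have e3 := congrFun h11 0
        have e4 := congrFun h11 1
        simp only [Pi.single_apply, Pi.smul_apply, smul_eq_mul] at e1 e2 e3 e4
        simp at e1 e2 e3 e4
        rcases e2 with e2 | e2
        · rcases e2 with e2 | e2
          · rw [e2] at e1; simp at e1
          · exact hO.ne e2
        · rw [e2] at e4; simp at e4
      obtain ⟨w, hw0, hwO⟩ := h6
      have h7 := h.pos hO hwO hw0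
      have h8 := hcpt w (fun i => i.elim0)
      rw [hwO] at h8
      nlinarith
    · exfalso
      have h6 := hC.neg ⟨0, h0⟩
      have h7 : br G (O + t • x) (up (e ⟨0, h0⟩)) = br G O (up (e ⟨0, h0⟩)) := by
        rw [br_add_left, br_smul_left, hx, mul_zero, add_zero]
      rw [h5] at h7
      rw [← h7] at h6
      simp at h6

theorem finOrd : FinOrdStmt := by
  intro G n e O h hC g hg hp
  choose p hp using hp
  have hinj : Function.Injective p := by
    intro i j hij
    apply hC.inj
    have h1 : (g : M4).mulVec (e i) = (g : M4).mulVec (e j) := by rw [hp, hp, hij]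
    rw [← mulVec_inv g (e i), h1, mulVec_inv]
  let π : Equiv.Perm (Fin n) := Equiv.ofBijective p (Finite.injective_iff_bijective.1 hinj)
  have hπ : ∀ i, (g : M4).mulVec (e i) = e (π i) := hp
  have hpow : ∀ (m : ℕ) i, (g ^ m : M4).mulVec (e i) = e ((π ^ m) i) := by
    intro m
    induction m with
    | zero => intro i; simp
    | succ m ih =>
      intro i
      rw [pow_succ, ← Matrix.mulVec_mulVec, hπ, ih, pow_succ]
      rfl
  refine ⟨orderOf π, orderOf_pos π, ?_⟩
  have hgm : g ^ orderOf π ∈ OG G := (OG G).pow_mem hg _
  have h1 : ∀ i, (g ^ orderOf π : M4).mulVec (e i) = e i := by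
    intro i
    rw [hpow, pow_orderOf_eq_one]
    rfl
  apply mat_ext
  intro x
  rw [Matrix.one_mulVec]
  have hcoe : ((g ^ orderOf π : M4ˣ) : M4) = (g : M4) ^ orderOf π := Units.val_pow_eq_pow_val _ _
  apply up_injective
  rw [← sub_eq_zero]
  apply eq_zero_of_orth h hC
  intro i
  rw [br_sub_left]
  have h2 : br G (up ((g ^ orderOf π : M4).mulVec x)) (up (e i)) = br G (up x) (up (e i)) := by
    have h3 := br_OG hgm (up x) (up (e i))
    rw [act_up, act_up, hcoe, h1] at h3
    exact h3
  rw [h2, sub_self]

end Pool.Agent.Refl.H92
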