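import Pool.Agent.Helper92_Refl.B0

/-!
# ROOTDVD and TRACE
-/

namespace Pool.Agent.Refl.H92

open Matrix Pool.Agent.Refl

theorem exists_bezout {r : Z4} (hr : Prim4 r) : ∃ c : Z4, ∑ i, c i * r i = 1 := by
  have h1 : Ideal.span (Set.range r) = ⊤ := by
    obtain ⟨d, hd⟩ := (IsPrincipalIdealRing.principal (Ideal.span (Set.range r))).principal
    have hd' : Ideal.span (Set.range r) = Ideal.span {d} := hd
    rw [hd', Ideal.span_singleton_eq_top]
    apply hr
    intro i
    rw [← Ideal.mem_span_singleton, ← hd']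
    exact Ideal.subset_span ⟨i, rfl⟩
  have h2 : (1 : ℤ) ∈ Ideal.span (Set.range r) := by rw [h1]; trivial
  rw [Ideal.mem_span_range_iff_exists_fun] at h2
  obtain ⟨c, hc⟩ := h2
  exact ⟨c, hc⟩

theorem bz_single (G : M4) (i : Fin 4) (r : Z4) :
    bz G (Pi.single i 1) r = G.mulVec r i := by
  rw [bz_eq, single_dotProduct, one_mul]

theorem rootDvd : RootDvdStmt := by
  intro G hG r hr
  obtain ⟨c, hc⟩ := exists_bezout hr.prim
  have h1 : ∀ i, bz G r r ∣ 2 * (G.mulVec r i) := by
    intro i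
    rw [← bz_single G]
    exact hr.dvd _
  have h2 : ∀ i, bz G r r ∣ 2 * (G.det * r i) := by
    intro i
    have h3 : G.det * r i = (G.adjugate.mulVec (G.mulVec r)) i := by
      rw [Matrix.mulVec_mulVec, Matrix.adjugate_mul, Matrix.smul_mulVec, Matrix.one_mulVec]
      rfl
    rw [h3]
    simp only [Matrix.mulVec, dotProduct] at h1 ⊢
    rw [Finset.mul_sum]
    apply Finset.dvd_sum
    intro j _
    have h4 := h1 j
    rw [show 2 * (G.adjugate i j * ∑ x, G j x * r x) = G.adjugate i j * (2 * ∑ x, G j x * r x) by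
      ring]
    exact Dvd.dvd.mul_left h4 _
  have h3 : 2 * G.det = ∑ i, c i * (2 * (G.det * r i)) := by
    have h4 : ∑ i, c i * (2 * (G.det * r i)) = 2 * G.det * ∑ i, c i * r i := by
      rw [Finset.mul_sum]
      exact Finset.sum_congr rfl (fun i _ => by ring)
    rw [h4, hc, mul_one]
  rw [h3]
  exact Finset.dvd_sum (fun i _ => Dvd.dvd.mul_left (h2 i) _)

theorem trace : TraceStmt := by
  intro g m hm hg
  set A : Matrix (Fin 4) (Fin 4) ℂ := g.map (Int.castRingHom ℂ) with hA
  have hAm : A ^ m = 1 := by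
    have h1 : (g ^ m).map (Int.castRingHom ℂ) = (1 : M4).map (Int.castRingHom ℂ) := by rw [hg]
    have h2 : (g ^ m).map (Int.castRingHom ℂ) = A ^ m :=
      map_pow (Int.castRingHom ℂ).mapMatrix g m
    rw [← h2, h1]
    exact map_one (Int.castRingHom ℂ).mapMatrix
  have htr : A.trace = ((g.trace : ℤ) : ℂ) := by
    rw [hA]
    exact (AddMonoidHom.map_trace (Int.castRingHom ℂ).toAddMonoidHom g).symm
  have hroot : ∀ z ∈ A.charpoly.roots, ‖z‖ = 1 := by
    intro z hz
    have h1 : z ∈ spectrum ℂ A := by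
      rw [Matrix.mem_spectrum_iff_isRoot_charpoly]
      exact (Polynomial.mem_roots'.1 hz).2
    have h2 : z ^ m ∈ spectrum ℂ (A ^ m) := spectrum.pow_mem_pow A m h1
    rw [hAm, spectrum.one_eq, Set.mem_singleton_iff] at h2
    have h3 : ‖z‖ ^ m = 1 := by rw [← norm_pow, h2, norm_one]
    exact (pow_eq_one_iff_of_nonneg (norm_nonneg z) hm.ne').1 h3
  have h1 : ‖A.trace‖ ≤ 4 := by
    rw [Matrix.trace_eq_sum_roots_charpoly A]
    have h2 : ‖A.charpoly.roots.sum‖ ≤ (A.charpoly.roots.map (fun z => ‖z‖)).sum :=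
      norm_multiset_sum_le _
    refine h2.trans ?_
    have h3 : A.charpoly.roots.map (fun z => ‖z‖) = A.charpoly.roots.map (fun _ => (1 : ℝ)) :=
      Multiset.map_congr rfl hroot
    rw [h3, Multiset.map_const', Multiset.sum_replicate, nsmul_eq_mul, mul_one]
    have h4 : A.charpoly.roots.card ≤ 4 := by
      refine (Polynomial.card_roots' _).trans ?_
      rw [Matrix.charpoly_natDegree_eq_dim]
      simp
    exact_mod_cast h4
  rw [htr, Complex.norm_intCast] at h1
  exact_mod_cast h1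

end Pool.Agent.Refl.H92
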