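import Pool.Agent.Helper92_Refl.Step
import Pool.Agent.Helper92_Refl.FinOrd
import Pool.Agent.Helper92_Refl.Small
import Pool.Agent.Helper51_Refl.Edge

/-!
# Unconditional versions (helper92's modules with helper51's EDGE1)
-/

namespace Pool.Agent.Refl.H92

open Pool.Agent.Refl

theorem detSign' : DetSignStmt := detSign H51.vertexPos H51.vertexStrict
theorem sep' : SepStmt := sep H51.vertexPos H51.vertexStrict
theorem mix' : MixStmt := mix H51.vertexPos H51.vertexStrict
theorem vertexIso' : VertexIsoStmt := vertexIso H51.vertexPos H51.vertexStrict
theorem endsNeg' : EndsNegStmt := endsNeg H51.vertexPos H51.vertexStrict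
theorem step' : StepStmt := step H51.vertexPos H51.vertexStrict

end Pool.Agent.Refl.H92
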