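import Pool.Agent.Helper23_Refl.StmtC1

/-!
# Module SQK of squad REFL: the kernel square root
-/

namespace Pool.Agent.Refl.H92

theorem fc_eq {α : Type} (n : ℕ) (f : ℕ → α) : K.fc n f = f n := by
  cases n <;> rfl

theorem blt_rec {α : Type} (x y : α) (a b : ℕ) :
    (Bool.rec x y (Nat.blt a b) : α) = if a < b then y else x := by
  by_cases h : a < b
  · have : Nat.blt a b = true := Nat.ble_eq_true_of_le h
    rw [this, if_pos h]
  · have : Nat.blt a b = false := by
      rw [Bool.eq_false_iff]
      intro h'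
      exact h (Nat.le_of_ble_eq_true h')
    rw [this, if_neg h]

theorem ble_rec {α : Type} (x y : α) (a b : ℕ) :
    (Bool.rec x y (Nat.ble a b) : α) = if a ≤ b then y else x := by
  by_cases h : a ≤ b
  · have : Nat.ble a b = true := Nat.ble_eq_true_of_le h
    rw [this, if_pos h]
  · have : Nat.ble a b = false := by
      rw [Bool.eq_false_iff]
      intro h'
      exact h (Nat.le_of_ble_eq_true h')
    rw [this, if_neg h]

theorem beq_rec {α : Type} (x y : α) (a b : ℕ) :
    (Bool.rec x y (Nat.beq a b) : α) = if a = b then y else x := by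
  by_cases h : a = b
  · have : Nat.beq a b = true := by subst h; exact Nat.beq_refl a
    rw [this, if_pos h]
  · have : Nat.beq a b = false := by
      rw [Bool.eq_false_iff]
      intro h'
      exact h (Nat.eq_of_beq_eq_true h')
    rw [this, if_neg h]

theorem nwt_succ (n fuel x : ℕ) :
    K.nwt n (fuel + 1) x = if (x + n / x) / 2 < x then K.nwt n fuel ((x + n / x) / 2) else x := by
  have h : K.nwt n (fuel + 1) x = K.fc ((x + n / x) / 2) fun y =>
    (Bool.rec x (K.nwt n fuel y) (Nat.blt y x) : ℕ) := rfl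
  rw [h, fc_eq, blt_rec]

theorem nwt_eq (n : ℕ) (hn : 0 < n) : ∀ fuel x : ℕ, 0 < x → n < (x + 1) * (x + 1) → x < fuel →
    K.nwt n fuel x = Nat.sqrt n := by
  intro fuel
  induction fuel with
  | zero => intro x _ _ hx; omega
  | succ fuel ih =>
    intro x hx hnx hf
    rw [nwt_succ]
    set y := (x + n / x) / 2 with hy
    have h1 : n < x * (n / x + 1) := Nat.lt_mul_div_succ n hx
    by_cases h : y < x
    · rw [if_pos h]
      refine ih y ?_ ?_ (by omega)
      · rcases Nat.eq_zero_or_pos y with h0 | h0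
        · exfalso
          have h2 : x + n / x ≤ 1 := by omega
          have h5 : 0 ≤ n / x := Nat.zero_le _
          have h3 : n / x = 0 := by
            generalize n / x = q at *
            omega
          have h4 : x = 1 := by
            generalize n / x = q at *
            omega
          rw [h4, Nat.div_one] at h3
          omega
        · exact h0
      · have h2 : x + n / x + 1 ≤ 2 * (y + 1) := by omega
        have h3 : 4 * (x * (n / x + 1)) ≤ (x + (n / x + 1)) * (x + (n / x + 1)) := by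
          have := sq_nonneg ((x : ℤ) - ((n / x + 1 : ℕ) : ℤ))
          zify
          push_cast at this
          nlinarith
        have h4 : (x + (n / x + 1)) * (x + (n / x + 1)) ≤ (2 * (y + 1)) * (2 * (y + 1)) :=
          Nat.mul_le_mul (by omega) (by omega)
        nlinarith
    · rw [if_neg h]
      have h2 : x ≤ n / x := by omega
      have h3 : x * x ≤ n := by
        calc x * x ≤ x * (n / x) := Nat.mul_le_mul_left _ h2
          _ ≤ n := Nat.mul_div_le n x
      exact Nat.eq_sqrt.2 ⟨h3, hnx⟩

/-- SQK -/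
theorem sqK : SqKStmt := by
  intro n
  unfold K.sqK
  rw [fc_eq]
  rcases Nat.eq_zero_or_pos n with h0 | h0
  · subst h0
    simp
  · obtain ⟨k, rfl⟩ : ∃ k, n = k + 1 := ⟨n - 1, by omega⟩
    have h : ∀ z : ℕ, (Nat.rec 0 (fun _ _ => K.fc (Nat.pow 2 (Nat.succ (Nat.div (Nat.log2 z) 2)))
        fun g => K.nwt z (Nat.succ g) g) (k + 1) : ℕ) =
        K.nwt z (2 ^ (Nat.log2 z / 2 + 1) + 1) (2 ^ (Nat.log2 z / 2 + 1)) := by
      intro z
      show K.fc _ _ = _
      rw [fc_eq]
      rfl
    rw [h]
    refine nwt_eq _ h0 _ _ (by positivity) ?_ (Nat.lt_succ_self _)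
    have h1 : k + 1 < 2 ^ (Nat.log2 (k + 1) + 1) := by
      rw [Nat.log2_eq_log_two]
      exact Nat.lt_pow_succ_log_self (by norm_num) _
    have h2 : 2 ^ (Nat.log2 (k + 1) + 1) ≤ 2 ^ (Nat.log2 (k + 1) / 2 + 1) *
        2 ^ (Nat.log2 (k + 1) / 2 + 1) := by
      rw [← pow_add]
      exact Nat.pow_le_pow_right (by norm_num) (by omega)
    have h3 : 2 ^ (Nat.log2 (k + 1) / 2 + 1) * 2 ^ (Nat.log2 (k + 1) / 2 + 1) ≤
        (2 ^ (Nat.log2 (k + 1) / 2 + 1) + 1) * (2 ^ (Nat.log2 (k + 1) / 2 + 1) + 1) :=
      Nat.mul_le_mul (Nat.le_succ _) (Nat.le_succ _)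
    omega

end Pool.Agent.Refl.H92
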