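import Pool.Agent.Helper23_Refl.StmtA

/-!
# Basic facts on the bilinear form (own copy)
-/

namespace Pool.Agent.Refl.H92

open Matrix Pool.Agent.Refl

variable {G : M4}

/-- real Gram matrix -/
def gr (G : M4) : Matrix (Fin 4) (Fin 4) ℝ := G.map (Int.cast : ℤ → ℝ)

theorem br_eq (G : M4) (x y : R4) : br G x y = x ⬝ᵥ (gr G).mulVec y := by
  simp only [br, dotProduct, Matrix.mulVec, gr, Matrix.map_apply, Finset.mul_sum]
  refine Finset.sum_congr rfl (fun i _ => Finset.sum_congr rfl (fun j _ => by ring))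

theorem bz_eq (G : M4) (x y : Z4) : bz G x y = x ⬝ᵥ G.mulVec y := by
  simp only [bz, dotProduct, Matrix.mulVec, Finset.mul_sum]
  refine Finset.sum_congr rfl (fun i _ => Finset.sum_congr rfl (fun j _ => by ring))

theorem br_up (G : M4) (x y : Z4) : br G (up x) (up y) = (bz G x y : ℝ) := by
  simp only [br, bz, up]
  push_cast
  rfl

theorem br_add_left (x y z : R4) : br G (x + y) z = br G x z + br G y z := by
  simp only [br_eq, add_dotProduct]

theorem br_add_right (x y z : R4) : br G x (y + z) = br G x y + br G x z := by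
  simp only [br_eq, Matrix.mulVec_add, dotProduct_add]

theorem br_smul_left (c : ℝ) (x y : R4) : br G (c • x) y = c * br G x y := by
  simp only [br_eq, smul_dotProduct, smul_eq_mul]

theorem br_smul_right (c : ℝ) (x y : R4) : br G x (c • y) = c * br G x y := by
  simp only [br_eq, Matrix.mulVec_smul, dotProduct_smul, smul_eq_mul]

theorem br_neg_left (x y : R4) : br G (-x) y = -br G x y := by
  simp only [br_eq, neg_dotProduct]

theorem br_neg_right (x y : R4) : br G x (-y) = -br G x y := by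
  simp only [br_eq, Matrix.mulVec_neg, dotProduct_neg]

theorem br_sub_left (x y z : R4) : br G (x - y) z = br G x z - br G y z := by
  simp only [br_eq, sub_dotProduct]

theorem br_sub_right (x y z : R4) : br G x (y - z) = br G x y - br G x z := by
  simp only [br_eq, Matrix.mulVec_sub, dotProduct_sub]

theorem br_zero_left (y : R4) : br G 0 y = 0 := by simp [br_eq]

theorem br_zero_right (y : R4) : br G y 0 = 0 := by simp [br_eq]

theorem br_sum_left {ι : Type*} (s : Finset ι) (f : ι → R4) (y : R4) :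
    br G (∑ i ∈ s, f i) y = ∑ i ∈ s, br G (f i) y := by
  classical
  induction s using Finset.induction_on with
  | empty => simp [br_zero_left]
  | insert a s ha ih => rw [Finset.sum_insert ha, Finset.sum_insert ha, br_add_left, ih]

theorem br_sum_right {ι : Type*} (s : Finset ι) (f : ι → R4) (y : R4) :
    br G y (∑ i ∈ s, f i) = ∑ i ∈ s, br G y (f i) := by
  classical
  induction s using Finset.induction_on with
  | empty => simp [br_zero_right]
  | insert a s ha ih => rw [Finset.sum_insert ha, Finset.sum_insert ha, br_add_right, ih]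

theorem br_comm (hG : G.transpose = G) (x y : R4) : br G x y = br G y x := by
  simp only [br]
  rw [Finset.sum_comm]
  refine Finset.sum_congr rfl (fun i _ => Finset.sum_congr rfl (fun j _ => ?_))
  have h : G j i = G i j := by
    conv_lhs => rw [← hG]
    rfl
  rw [h]
  ring

theorem bz_comm (hG : G.transpose = G) (x y : Z4) : bz G x y = bz G y x := by
  simp only [bz]
  rw [Finset.sum_comm]
  refine Finset.sum_congr rfl (fun i _ => Finset.sum_congr rfl (fun j _ => ?_))
  have h : G j i = G i j := by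
    conv_lhs => rw [← hG]
    rfl
  rw [h]
  ring

theorem up_mulVec (g : M4) (x : Z4) : up (g.mulVec x) = act g (up x) := by
  ext i
  simp only [up, act, Matrix.mulVec, dotProduct, Matrix.map_apply]
  push_cast
  rfl

theorem act_add (g : M4) (x y : R4) : act g (x + y) = act g x + act g y := by
  simp only [act, Matrix.mulVec_add]

theorem act_sub (g : M4) (x y : R4) : act g (x - y) = act g x - act g y := by
  simp only [act, Matrix.mulVec_sub]

theorem act_smul (g : M4) (c : ℝ) (x : R4) : act g (c • x) = c • act g x := by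
  simp only [act, Matrix.mulVec_smul]

theorem act_mul (g h : M4) (x : R4) : act (g * h) x = act g (act h x) := by
  simp only [act, Matrix.mulVec_mulVec]
  congr 1
  have := Matrix.map_mul (L := g) (M := h) (f := Int.castRingHom ℝ)
  exact this

theorem act_one (x : R4) : act 1 x = x := by
  simp only [act]
  have h : ((1 : M4).map (Int.cast : ℤ → ℝ)) = 1 := by
    ext i j
    by_cases hij : i = j
    · subst hij; simp
    · simp [Matrix.one_apply_ne hij]
  rw [h, Matrix.one_mulVec]

theorem br_act {g : M4ˣ} (hg : g ∈ OG G) (x y : R4) :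
    br G (act (g : M4) x) (act (g : M4) y) = br G x y := by
  have h1 : (g : M4).transpose * G * (g : M4) = G := hg
  have h2 : ((g : M4).map (Int.cast : ℤ → ℝ)).transpose * gr G * ((g : M4).map (Int.cast : ℤ → ℝ)) =
      gr G := by
    have h3 := congrArg (fun M : M4 => M.map (Int.castRingHom ℝ)) h1
    simp only [Matrix.map_mul] at h3
    exact h3
  rw [br_eq, br_eq]
  unfold act
  rw [Matrix.mulVec_mulVec, Matrix.dotProduct_mulVec, Matrix.vecMul_mulVec,
    ← Matrix.dotProduct_mulVec, ← Matrix.mul_assoc, h2]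

theorem bz_act {g : M4ˣ} (hg : g ∈ OG G) (x y : Z4) :
    bz G ((g : M4).mulVec x) ((g : M4).mulVec y) = bz G x y := by
  have h := br_act hg (up x) (up y)
  rw [← up_mulVec, ← up_mulVec, br_up, br_up] at h
  exact_mod_cast h

theorem dot_conj (P A : Matrix (Fin 4) (Fin 4) ℝ) (u v : R4) :
    (P.mulVec u) ⬝ᵥ (A.mulVec (P.mulVec v)) = u ⬝ᵥ ((P.transpose * A * P).mulVec v) := by
  rw [Matrix.mulVec_mulVec, Matrix.dotProduct_mulVec, Matrix.vecMul_mulVec,
    ← Matrix.dotProduct_mulVec, Matrix.mul_assoc]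

/-- real congruence to the Lorentz form -/
theorem exists_lorentz (hs : Sig31 G) : ∃ T : R4 → R4, (∀ x y, T (x + y) = T x + T y) ∧
    (∀ (c : ℝ) x, T (c • x) = c • T x) ∧ (∀ x, T x = 0 → x = 0) ∧
    ∀ x y, br G x y = T x 0 * T y 0 + T x 1 * T y 1 + T x 2 * T y 2 - T x 3 * T y 3 := by
  obtain ⟨P, hP, hD⟩ := hs
  have hPi : P * P⁻¹ = 1 := Matrix.mul_nonsing_inv _ hP
  refine ⟨fun x => P⁻¹.mulVec x, fun x y => Matrix.mulVec_add _ _ _,
    fun c x => Matrix.mulVec_smul _ _ _, ?_, ?_⟩
  · intro x hx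
    have h1 : P.mulVec (P⁻¹.mulVec x) = x := by
      rw [Matrix.mulVec_mulVec, hPi, Matrix.one_mulVec]
    have hx' : P⁻¹.mulVec x = 0 := hx
    rw [← h1, hx', Matrix.mulVec_zero]
  · intro x y
    have h1 : ∀ x : R4, P.mulVec (P⁻¹.mulVec x) = x := fun x => by
      rw [Matrix.mulVec_mulVec, hPi, Matrix.one_mulVec]
    have h2 : br G x y = (P⁻¹.mulVec x) ⬝ᵥ ((Matrix.diagonal ![1, 1, 1, -1]).mulVec
        (P⁻¹.mulVec y)) := by
      rw [← hD, br_eq, ← gr, ← dot_conj, h1 x, h1 y]
    rw [h2]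
    simp [dotProduct, Fin.sum_univ_four, Matrix.mulVec_diagonal]
    ring

/-- vectors orthogonal to a negative vector are positive -/
theorem pos_of_orth (hs : Sig31 G) {O x : R4} (hO : br G O O < 0) (hx : br G x O = 0)
    (hx0 : x ≠ 0) : 0 < br G x x := by
  obtain ⟨T, hTa, hTs, hT0, hT⟩ := exists_lorentz hs
  have hTx : T x ≠ 0 := fun h => hx0 (hT0 x h)
  rw [hT] at hO hx ⊢
  set a := T x 0
  set b := T x 1
  set c := T x 2
  set d := T x 3
  set p := T O 0
  set q := T O 1
  set r := T O 2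
  set s := T O 3
  have h1 : (a * p + b * q + c * r) ^ 2 ≤ (a ^ 2 + b ^ 2 + c ^ 2) * (p ^ 2 + q ^ 2 + r ^ 2) := by
    nlinarith [sq_nonneg (a * q - b * p), sq_nonneg (a * r - c * p), sq_nonneg (b * r - c * q)]
  have h2 : a * p + b * q + c * r = d * s := by linarith
  have h3 : p ^ 2 + q ^ 2 + r ^ 2 < s ^ 2 := by nlinarith
  have hs0 : 0 < s ^ 2 := lt_of_le_of_lt (by positivity) h3
  by_contra hcon
  push Not at hcon
  have h4 : a ^ 2 + b ^ 2 + c ^ 2 ≤ d ^ 2 := by nlinarith
  rw [h2] at h1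
  have h5 : a ^ 2 + b ^ 2 + c ^ 2 = 0 := by
    by_contra h6
    have h7 : 0 < a ^ 2 + b ^ 2 + c ^ 2 := lt_of_le_of_ne (by positivity) (Ne.symm h6)
    have h8 : (a ^ 2 + b ^ 2 + c ^ 2) * (p ^ 2 + q ^ 2 + r ^ 2) <
        (a ^ 2 + b ^ 2 + c ^ 2) * s ^ 2 := mul_lt_mul_of_pos_left h3 h7
    have h9 : (a ^ 2 + b ^ 2 + c ^ 2) * s ^ 2 ≤ d ^ 2 * s ^ 2 :=
      mul_le_mul_of_nonneg_right h4 hs0.le
    nlinarith
  have ha : a = 0 := by nlinarith [sq_nonneg a, sq_nonneg b, sq_nonneg c]
  have hb : b = 0 := by nlinarith [sq_nonneg a, sq_nonneg b, sq_nonneg c]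
  have hc : c = 0 := by nlinarith [sq_nonneg a, sq_nonneg b, sq_nonneg c]
  have hd : d = 0 := by
    have h6 : d * s = 0 := by rw [← h2, ha, hb, hc]; ring
    rcases mul_eq_zero.1 h6 with h | h
    · exact h
    · rw [h] at hs0; norm_num at hs0
  apply hTx
  ext i
  fin_cases i
  · exact ha
  · exact hb
  · exact hc
  · exact hd

theorem nondeg (hs : Sig31 G) {x : R4} (hx : ∀ y, br G x y = 0) : x = 0 := by
  obtain ⟨T, hTa, hTs, hT0, hT⟩ := exists_lorentz hs
  by_contra hx0
  obtain ⟨P, hP, hD⟩ := hs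
  have h1 : x ᵥ* (gr G) = 0 := by
    apply dotProduct_eq_zero_iff.1
    intro y
    rw [← Matrix.dotProduct_mulVec, ← br_eq]
    exact hx y
  have h2 : IsUnit (gr G).det := by
    have h3 := congrArg Matrix.det hD
    rw [Matrix.det_mul, Matrix.det_mul, Matrix.det_diagonal] at h3
    simp [Fin.prod_univ_four] at h3
    rw [isUnit_iff_ne_zero]
    intro h4
    unfold gr at h4
    rw [h4] at h3
    simp at h3
  apply hx0
  have h5 : x ᵥ* (gr G) ᵥ* (gr G)⁻¹ = x := by
    rw [Matrix.vecMul_vecMul, Matrix.mul_nonsing_inv _ h2, Matrix.vecMul_one]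
  rw [← h5, h1, Matrix.zero_vecMul]

end Pool.Agent.Refl.H92
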