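import Pool.Agent.Helper46_Refl.Nums

/-!
# REFL part C: modules N45 (N45IStmt, N45IIStmt)
-/

set_option autoImplicit false

namespace Pool.Agent.Refl.H92

open Matrix Pool.Agent.Refl

variable {G : M4}

/-- mixed Gram determinants of five vectors vanish -/
theorem gram5 (G : M4) (v w : Fin 5 → Z4) :
    (Matrix.of fun i j => bz G (v i) (w j)).det = 0 := by
  let V' : Matrix (Fin 5) (Fin 5) ℤ := fun i j => Fin.snoc (α := fun _ => ℤ) (v i) 0 j
  let W' : Matrix (Fin 5) (Fin 5) ℤ :=
    fun i j => Fin.snoc (α := fun _ => ℤ) (fun k => ∑ l, G k l * w j l) 0 i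
  have h1 : (Matrix.of fun i j => bz G (v i) (w j)) = V' * W' := by
    ext i j
    rw [Matrix.mul_apply, Fin.sum_univ_castSucc]
    simp only [V', W', Fin.snoc_castSucc, Fin.snoc_last, mul_zero, add_zero, of_apply, bz]
    refine Finset.sum_congr rfl fun k _ => ?_
    rw [Finset.mul_sum]
    refine Finset.sum_congr rfl fun l _ => ?_
    ring
  have h2 : V'.det = 0 := by
    refine Matrix.det_eq_zero_of_column_eq_zero (Fin.last 4) fun i => ?_
    simp only [V', Fin.snoc_last]
  rw [h1, Matrix.det_mul, h2, zero_mul]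

/-- the determinant of a five by five matrix -/
theorem det5 (M : Matrix (Fin 5) (Fin 5) ℤ) : M.det =
    M 0 0 * (M.submatrix Fin.succ (Fin.succAbove 0)).det -
    M 0 1 * (M.submatrix Fin.succ (Fin.succAbove 1)).det +
    M 0 2 * (M.submatrix Fin.succ (Fin.succAbove 2)).det -
    M 0 3 * (M.submatrix Fin.succ (Fin.succAbove 3)).det +
    M 0 4 * (M.submatrix Fin.succ (Fin.succAbove 4)).det := by
  rw [det_succ_row_zero, Fin.sum_univ_five]
  simp only [Fin.val_zero, pow_zero, one_mul, Fin.val_one, pow_one, neg_mul]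
  norm_num [Fin.val_two]
  ring

theorem zero_of_nn (hG : Lat G) {a b : Z4} (ha : IsRoot G a) (hb : IsRoot G b)
    (h : nn G a b = 0) : bz G a b = 0 := by
  have h1 := H46.nnm hG ha hb
  rw [h] at h1
  simp only [Nat.cast_zero, zero_mul] at h1
  nlinarith [sq_nonneg (bz G a b)]

theorem n45I : N45IStmt := by
  intro G a b c d e hG hO hac had hbc hbd _ _
  have ha := hO.root a (by simp)
  have hb := hO.root b (by simp)
  have hc := hO.root c (by simp)
  have hd := hO.root d (by simp)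
  have he := hO.root e (by simp)
  have hp := hO.obt
  simp only [List.pairwise_cons, List.mem_cons, List.not_mem_nil, or_false, forall_eq_or_imp,
    forall_eq, IsEmpty.forall_iff, implies_true, List.Pairwise.nil, and_true] at hp
  obtain ⟨⟨pab, pac, pad, pae⟩, ⟨pbc, pbd, pbe⟩, ⟨pcd, pce⟩, pde⟩ := hp
  have zac := zero_of_nn hG ha hc hac
  have zad := zero_of_nn hG ha hd had
  have zbc := zero_of_nn hG hb hc hbc
  have zbd := zero_of_nn hG hb hd hbd
  have h5 := gram5 G ![a, b, c, d, e] ![a, b, c, d, e]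
  rw [det5] at h5
  simp only [H46.det4] at h5
  simp [Fin.succAbove] at h5
  rw [hG.zcomm c a, hG.zcomm d a, hG.zcomm c b, hG.zcomm d b, zac, zad, zbc, zbd, hG.zcomm b a,
    hG.zcomm e a, hG.zcomm e b, hG.zcomm d c, hG.zcomm e c, hG.zcomm e d] at h5
  have nab := H46.nnm hG ha hb
  have nae := H46.nnm hG ha he
  have nbe := H46.nnm hG hb he
  have ncd := H46.nnm hG hc hd
  have nce := H46.nnm hG hc he
  have nde := H46.nnm hG hd he
  have t1 := H46.tri_eq hG ha hb he pab pbe pae
  have t2 := H46.tri_eq hG hc hd he pcd pde pce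
  have hpos : 0 < bz G a a * bz G b b * bz G c c * bz G d d * bz G e e :=
    mul_pos (mul_pos (mul_pos (mul_pos ha.pos hb.pos) hc.pos) hd.pos) he.pos
  set A := bz G a a
  set B := bz G b b
  set C := bz G c c
  set D := bz G d d
  set E := bz G e e
  set T1 : ℤ := (Nat.sqrt (nn G a b * nn G b e * nn G a e) : ℤ)
  set T2 : ℤ := (Nat.sqrt (nn G c d * nn G d e * nn G c e) : ℤ)
  set Nab : ℤ := (nn G a b : ℤ)
  set Nae : ℤ := (nn G a e : ℤ)
  set Nbe : ℤ := (nn G b e : ℤ)
  set Ncd : ℤ := (nn G c d : ℤ)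
  set Nce : ℤ := (nn G c e : ℤ)
  set Nde : ℤ := (nn G d e : ℤ)
  have e1 : ((Nde + T2 + Nce) * (4 - Nab) - (Ncd - 4) * (Nbe + Nae + T1 + Nab - 4)) *
      (A * B * C * D * E) =
      4 * ((Nde * (D * E)) * (A * B * C) + (T2 * (C * D * E)) * (A * B) +
        (Nce * (C * E)) * (A * B * D)) -
      ((Nde * (D * E)) * C + T2 * (C * D * E) + (Nce * (C * E)) * D) * (Nab * (A * B)) -
      ((Ncd * (C * D)) - 4 * (C * D)) * ((Nbe * (B * E)) * A + (Nae * (A * E)) * B +
        T1 * (A * B * E) + (Nab * (A * B)) * E - 4 * (A * B * E)) := by ring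
  rw [nde, t2, nce, nab, ncd, nbe, nae, t1] at e1
  have e2 : ((Nde + T2 + Nce) * (4 - Nab) - (Ncd - 4) * (Nbe + Nae + T1 + Nab - 4)) *
      (A * B * C * D * E) = 0 := by
    rw [e1]
    linear_combination (-16) * h5
  rcases mul_eq_zero.1 e2 with h | h
  · linarith
  · exact absurd h hpos.ne'

theorem n45II : N45IIStmt := by
  intro G a b c d e hG hO hab hbc hbd _
  have ha := hO.root a (by simp)
  have hb := hO.root b (by simp)
  have hc := hO.root c (by simp)
  have hd := hO.root d (by simp)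
  have he := hO.root e (by simp)
  have hp := hO.obt
  simp only [List.pairwise_cons, List.mem_cons, List.not_mem_nil, or_false, forall_eq_or_imp,
    forall_eq, IsEmpty.forall_iff, implies_true, List.Pairwise.nil, and_true] at hp
  obtain ⟨⟨pab, pac, pad, pae⟩, ⟨pbc, pbd, pbe⟩, ⟨pcd, pce⟩, pde⟩ := hp
  have zab := zero_of_nn hG ha hb hab
  have zbc := zero_of_nn hG hb hc hbc
  have zbd := zero_of_nn hG hb hd hbd
  have pea : bz G e a ≤ 0 := by rw [hG.zcomm e a]; exact pae
  have pda : bz G d a ≤ 0 := by rw [hG.zcomm d a]; exact pad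
  have pdc : bz G d c ≤ 0 := by rw [hG.zcomm d c]; exact pcd
  have ped : bz G e d ≤ 0 := by rw [hG.zcomm e d]; exact pde
  have h5 := gram5 G ![a, b, c, d, e] ![a, b, c, d, e]
  rw [det5] at h5
  simp only [H46.det4] at h5
  simp [Fin.succAbove] at h5
  rw [hG.zcomm b a, hG.zcomm c b, hG.zcomm d b, zab, zbc, zbd, hG.zcomm c a, hG.zcomm d a,
    hG.zcomm e a, hG.zcomm e b, hG.zcomm d c, hG.zcomm e c, hG.zcomm e d] at h5
  have nac := H46.nnm hG ha hc
  have nad := H46.nnm hG ha hd
  have nae := H46.nnm hG ha he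
  have nbe := H46.nnm hG hb he
  have ncd := H46.nnm hG hc hd
  have nce := H46.nnm hG hc he
  have nde := H46.nnm hG hd he
  have t134 := H46.tri_eq hG ha hc hd pac pcd pad
  have t135 := H46.tri_eq hG ha hc he pac pce pae
  have t145 := H46.tri_eq hG ha hd he pad pde pae
  have t345 := H46.tri_eq hG hc hd he pcd pde pce
  have u1 := H46.quad_eq hG ha hc hd he pac pcd pde pea
  have u2 := H46.quad_eq hG ha hc he hd pac pce ped pda
  have u3 := H46.quad_eq hG ha hd hc he pad pdc pce pea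
  rw [hG.zcomm e a] at u1 u3
  rw [hG.zcomm d a, hG.zcomm e d] at u2
  rw [hG.zcomm d c] at u3
  have q1 : nn G a c * nn G a d * nn G c d = nn G a c * nn G c d * nn G a d := by ring
  have q2 : nn G a d * nn G c d * nn G c e * nn G a e =
      nn G a d * nn G d c * nn G c e * nn G e a := by
    rw [H46.nn_comm hG hd hc, H46.nn_comm hG he ha]
  have q3 : nn G a c * nn G c e * nn G a e = nn G a c * nn G c e * nn G a e := rfl
  have hpos : 0 < bz G a a * bz G b b * bz G c c * bz G d d * bz G e e :=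
    mul_pos (mul_pos (mul_pos (mul_pos ha.pos hb.pos) hc.pos) hd.pos) he.pos
  have hpos4 : 0 < bz G a a * bz G c c * bz G d d * bz G e e :=
    mul_pos (mul_pos (mul_pos ha.pos hc.pos) hd.pos) he.pos
  refine ⟨4 * Nat.sqrt (nn G a d * nn G d e * nn G a e) +
    4 * Nat.sqrt (nn G c d * nn G d e * nn G c e) +
    2 * Nat.sqrt (nn G a c * nn G c d * nn G d e * nn G e a) +
    2 * Nat.sqrt (nn G a c * nn G c e * nn G e d * nn G d a), ?_, ?_⟩
  · zify
    unfold pII
    rw [q1, q2]
    push_cast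
    set A := bz G a a
    set B := bz G b b
    set C := bz G c c
    set D := bz G d d
    set E := bz G e e
    set T134 : ℤ := (Nat.sqrt (nn G a c * nn G c d * nn G a d) : ℤ)
    set T135 : ℤ := (Nat.sqrt (nn G a c * nn G c e * nn G a e) : ℤ)
    set T145 : ℤ := (Nat.sqrt (nn G a d * nn G d e * nn G a e) : ℤ)
    set T345 : ℤ := (Nat.sqrt (nn G c d * nn G d e * nn G c e) : ℤ)
    set U1 : ℤ := (Nat.sqrt (nn G a c * nn G c d * nn G d e * nn G e a) : ℤ)
    set U2 : ℤ := (Nat.sqrt (nn G a c * nn G c e * nn G e d * nn G d a) : ℤ)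
    set U3 : ℤ := (Nat.sqrt (nn G a d * nn G d c * nn G c e * nn G e a) : ℤ)
    set Nac : ℤ := (nn G a c : ℤ)
    set Nad : ℤ := (nn G a d : ℤ)
    set Nae : ℤ := (nn G a e : ℤ)
    set Ncd : ℤ := (nn G c d : ℤ)
    set Nce : ℤ := (nn G c e : ℤ)
    set Nde : ℤ := (nn G d e : ℤ)
    have e1 : (4 * T145 + 4 * T345 + 2 * U1 + 2 * U2) * (A * C * D * E) =
        4 * (T145 * (A * D * E)) * C + 4 * (T345 * (C * D * E)) * A +
          2 * (U1 * (A * C * D * E)) + 2 * (U2 * (A * C * E * D)) := by ring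
    rw [t145, t345, u1, u2] at e1
    have e2 : (16 * Nad * Nae + 4 * Nac * Nae * Ncd + 16 * Ncd * Nce + 4 * Nce * Nad * Nac +
        16 * Nae * T134 + 32 * U3 + 16 * Nad * T135 + 16 * Ncd * T135 + 8 * Nac * U3 +
        16 * Nce * T134) * Nde * (A * C * D * E) ^ 2 =
        (16 * (Nad * (A * D)) * (Nae * (A * E)) * C ^ 2 +
          4 * (Nac * (A * C)) * (Nae * (A * E)) * (Ncd * (C * D)) +
          16 * (Ncd * (C * D)) * (Nce * (C * E)) * A ^ 2 +
          4 * (Nce * (C * E)) * (Nad * (A * D)) * (Nac * (A * C)) +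
          16 * (Nae * (A * E)) * (T134 * (A * C * D)) * C +
          32 * (U3 * (A * D * C * E)) * A * C +
          16 * (Nad * (A * D)) * (T135 * (A * C * E)) * C +
          16 * (Ncd * (C * D)) * (T135 * (A * C * E)) * A +
          8 * (Nac * (A * C)) * (U3 * (A * D * C * E)) +
          16 * (Nce * (C * E)) * (T134 * (A * C * D)) * A) * (Nde * (D * E)) := by ring
    rw [nad, nae, nac, ncd, nce, nde, t134, t135, u3] at e2
    have e3 : (4 * T145 + 4 * T345 + 2 * U1 + 2 * U2) ^ 2 * (A * C * D * E) ^ 2 =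
        (16 * Nad * Nae + 4 * Nac * Nae * Ncd + 16 * Ncd * Nce + 4 * Nce * Nad * Nac +
        16 * Nae * T134 + 32 * U3 + 16 * Nad * T135 + 16 * Ncd * T135 + 8 * Nac * U3 +
        16 * Nce * T134) * Nde * (A * C * D * E) ^ 2 := by
      rw [e2, ← mul_pow, e1]
      ring
    exact mul_right_cancel₀ (pow_ne_zero 2 hpos4.ne') e3
  · push_cast
    unfold cII
    rw [q1, q2]
    set A := bz G a a
    set B := bz G b b
    set C := bz G c c
    set D := bz G d d
    set E := bz G e e
    set T134 : ℤ := (Nat.sqrt (nn G a c * nn G c d * nn G a d) : ℤ)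
    set T135 : ℤ := (Nat.sqrt (nn G a c * nn G c e * nn G a e) : ℤ)
    set T145 : ℤ := (Nat.sqrt (nn G a d * nn G d e * nn G a e) : ℤ)
    set T345 : ℤ := (Nat.sqrt (nn G c d * nn G d e * nn G c e) : ℤ)
    set U1 : ℤ := (Nat.sqrt (nn G a c * nn G c d * nn G d e * nn G e a) : ℤ)
    set U2 : ℤ := (Nat.sqrt (nn G a c * nn G c e * nn G e d * nn G d a) : ℤ)
    set U3 : ℤ := (Nat.sqrt (nn G a d * nn G d c * nn G c e * nn G e a) : ℤ)
    set Nac : ℤ := (nn G a c : ℤ)
    set Nad : ℤ := (nn G a d : ℤ)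
    set Nae : ℤ := (nn G a e : ℤ)
    set Nbe : ℤ := (nn G b e : ℤ)
    set Ncd : ℤ := (nn G c d : ℤ)
    set Nce : ℤ := (nn G c e : ℤ)
    set Nde : ℤ := (nn G d e : ℤ)
    have e1 : ((4 - Nac) * Nde + (4 * T145 + 4 * T345 + 2 * U1 + 2 * U2) +
        (Nae * (4 - Ncd) + Nce * (4 - Nad) + 4 * T135 + 2 * U3 -
          (4 - Nbe) * (4 - Nac - Nad - Ncd - T134))) * (A * B * C * D * E) =
        (4 * (Nde * (D * E)) * A * C * B - (Nac * (A * C)) * (Nde * (D * E)) * B) +
        (4 * (T145 * (A * D * E)) * C * B + 4 * (T345 * (C * D * E)) * A * B +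
          2 * (U1 * (A * C * D * E)) * B + 2 * (U2 * (A * C * E * D)) * B) +
        (4 * (Nae * (A * E)) * C * D * B - (Nae * (A * E)) * (Ncd * (C * D)) * B +
          4 * (Nce * (C * E)) * A * D * B - (Nce * (C * E)) * (Nad * (A * D)) * B +
          4 * (T135 * (A * C * E)) * D * B + 2 * (U3 * (A * D * C * E)) * B) -
        (4 * B * E - Nbe * (B * E)) * (4 * (A * C * D) - (Nac * (A * C)) * D -
          (Nad * (A * D)) * C - (Ncd * (C * D)) * A - T134 * (A * C * D)) := by ring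
    rw [nde, nac, t145, t345, u1, u2, nae, ncd, nce, nad, t135, u3, nbe, t134] at e1
    have e2 : ((4 - Nac) * Nde + (4 * T145 + 4 * T345 + 2 * U1 + 2 * U2) +
        (Nae * (4 - Ncd) + Nce * (4 - Nad) + 4 * T135 + 2 * U3 -
          (4 - Nbe) * (4 - Nac - Nad - Ncd - T134))) * (A * B * C * D * E) = 0 := by
      rw [e1]
      linear_combination (-16) * h5
    rcases mul_eq_zero.1 e2 with h | h
    · exact h
    · exact absurd h hpos.ne'

end Pool.Agent.Refl.H92
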