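import Pool.Agent.Helper92_Refl.N45

/-!
# REFL part C: module N56 (N56Stmt)
-/

set_option autoImplicit false

namespace Pool.Agent.Refl.H92

open Matrix Pool.Agent.Refl

theorem n56 : N56Stmt := by
  intro G a b c d e f hG hO hab hac had hbc hbd h4 hae M nu
  have ha := hO.root a (by simp)
  have hb := hO.root b (by simp)
  have hc := hO.root c (by simp)
  have hd := hO.root d (by simp)
  have he := hO.root e (by simp)
  have hf := hO.root f (by simp)
  have hp := hO.obt
  simp only [List.pairwise_cons, List.mem_cons, List.not_mem_nil, or_false, forall_eq_or_imp,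
    forall_eq, IsEmpty.forall_iff, implies_true, List.Pairwise.nil, and_true] at hp
  obtain ⟨⟨pab, pac, pad, pae, paf⟩, ⟨pbc, pbd, pbe, pbf⟩, ⟨pcd, pce, pcf⟩, ⟨pde, pdf⟩, pef⟩ := hp
  have zab := zero_of_nn hG ha hb hab
  have zac := zero_of_nn hG ha hc hac
  have zad := zero_of_nn hG ha hd had
  have zae := zero_of_nn hG ha he hae
  have zbc := zero_of_nn hG hb hc hbc
  have zbd := zero_of_nn hG hb hd hbd
  have ped : bz G e d ≤ 0 := by rw [hG.zcomm e d]; exact pde
  have pfc : bz G f c ≤ 0 := by rw [hG.zcomm f c]; exact pcf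
  have h5 := gram5 G ![a, b, c, d, e] ![a, b, c, d, f]
  rw [det5] at h5
  simp only [H46.det4] at h5
  simp [Fin.succAbove] at h5
  rw [hG.zcomm b a, hG.zcomm c b, hG.zcomm d b, zab, zbc, zbd, hG.zcomm c a, hG.zcomm d a,
    hG.zcomm e a, zac, zad, zae, hG.zcomm e b, hG.zcomm d c, hG.zcomm e c, hG.zcomm e d] at h5
  have nbe := H46.nnm hG hb he
  have nbf := H46.nnm hG hb hf
  have ncd := H46.nnm hG hc hd
  have nce := H46.nnm hG hc he
  have ncf := H46.nnm hG hc hf
  have nde := H46.nnm hG hd he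
  have ndf := H46.nnm hG hd hf
  have nef := H46.nnm hG he hf
  have t345 := H46.tri_eq hG hc hd he pcd pde pce
  have t346 := H46.tri_eq hG hc hd hf pcd pdf pcf
  have t2 := H46.tri_eq hG hb he hf pbe pef pbf
  have u := H46.quad_eq hG hc he hd hf pce ped pdf pfc
  rw [hG.zcomm e d, hG.zcomm f c] at u
  have q1 : nn G c d * nn G c e * nn G d e = nn G c d * nn G d e * nn G c e := by ring
  have q2 : nn G c d * nn G c f * nn G d f = nn G c d * nn G d f * nn G c f := by ring
  have q3 : nn G c e * nn G c f * nn G d f * nn G d e =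
      nn G c e * nn G e d * nn G d f * nn G f c := by
    rw [H46.nn_comm hG he hd, H46.nn_comm hG hf hc]; ring
  have q4 : nn G e f * (nn G b e * nn G b f) = nn G b e * nn G e f * nn G b f := by ring
  have pA := ha.pos
  have pB := hb.pos
  have pC := hc.pos
  have pD := hd.pos
  have pE := he.pos
  have pF := hf.pos
  have key : (nu : ℤ) * (bz G c c ^ 2 * bz G d d ^ 2 * bz G e e * bz G f f) =
      64 * (bz G d d * bz G c e * bz G c f + bz G c c * bz G d e * bz G d f -
        bz G c d * (bz G c e * bz G d f + bz G d e * bz G c f)) ^ 2 := by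
    simp only [nu]
    unfold numC
    rw [q1, q2, q3]
    push_cast
    set C := bz G c c
    set D := bz G d d
    set E := bz G e e
    set F := bz G f f
    set T345 : ℤ := (Nat.sqrt (nn G c d * nn G d e * nn G c e) : ℤ)
    set T346 : ℤ := (Nat.sqrt (nn G c d * nn G d f * nn G c f) : ℤ)
    set U : ℤ := (Nat.sqrt (nn G c e * nn G e d * nn G d f * nn G f c) : ℤ)
    set Ncd : ℤ := (nn G c d : ℤ)
    set Nce : ℤ := (nn G c e : ℤ)
    set Ncf : ℤ := (nn G c f : ℤ)
    set Nde : ℤ := (nn G d e : ℤ)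
    set Ndf : ℤ := (nn G d f : ℤ)
    have e1 : (4 * Nce * Ncf + 4 * Nde * Ndf + Ncd * Nce * Ndf + Ncd * Nde * Ncf +
        8 * U + 4 * (Nce + Nde) * T346 + 4 * (Ncf + Ndf) * T345 + 2 * Ncd * U) *
        (C ^ 2 * D ^ 2 * E * F) =
        4 * (Nce * (C * E)) * (Ncf * (C * F)) * D ^ 2 +
        4 * (Nde * (D * E)) * (Ndf * (D * F)) * C ^ 2 +
        (Ncd * (C * D)) * (Nce * (C * E)) * (Ndf * (D * F)) +
        (Ncd * (C * D)) * (Nde * (D * E)) * (Ncf * (C * F)) +
        8 * (U * (C * E * D * F)) * C * D +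
        4 * ((Nce * (C * E)) * (T346 * (C * D * F)) * D +
          (Nde * (D * E)) * (T346 * (C * D * F)) * C) +
        4 * ((Ncf * (C * F)) * (T345 * (C * D * E)) * D +
          (Ndf * (D * F)) * (T345 * (C * D * E)) * C) +
        2 * (Ncd * (C * D)) * (U * (C * E * D * F)) := by ring
    rw [nce, ncf, nde, ndf, ncd, t345, t346, u] at e1
    rw [e1]
    ring
  have rel : (bz G e f * bz G b b - bz G b e * bz G b f) *
      (bz G c c * bz G d d - bz G c d ^ 2) = bz G b b *
      (bz G d d * bz G c e * bz G c f + bz G c c * bz G d e * bz G d f -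
        bz G c d * (bz G c e * bz G d f + bz G d e * bz G c f)) := by
    have h6 : bz G a a * ((bz G e f * bz G b b - bz G b e * bz G b f) *
      (bz G c c * bz G d d - bz G c d ^ 2) - bz G b b *
      (bz G d d * bz G c e * bz G c f + bz G c c * bz G d e * bz G d f -
        bz G c d * (bz G c e * bz G d f + bz G d e * bz G c f))) = 0 := by
      linear_combination h5
    rcases mul_eq_zero.1 h6 with h | h
    · exact absurd h pA.ne'
    · linarith
  set S : ℤ := bz G d d * bz G c e * bz G c f + bz G c c * bz G d e * bz G d f -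
        bz G c d * (bz G c e * bz G d f + bz G d e * bz G c f) with hS
  constructor
  · intro hM
    have h0 : bz G b e * bz G b f = 0 := by
      rcases Nat.mul_eq_zero.1 hM with h | h
      · rw [zero_of_nn hG hb he h, zero_mul]
      · rw [zero_of_nn hG hb hf h, mul_zero]
    rw [h0, sub_zero] at rel
    have rel2 : bz G e f * (bz G c c * bz G d d - bz G c d ^ 2) = S := by
      apply mul_left_cancel₀ pB.ne'
      rw [← rel]; ring
    have e3 : ((nn G e f : ℤ) * ((nn G c d : ℤ) - 4) ^ 2) *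
        (bz G c c ^ 2 * bz G d d ^ 2 * bz G e e * bz G f f) =
        (nu : ℤ) * (bz G c c ^ 2 * bz G d d ^ 2 * bz G e e * bz G f f) := by
      rw [key, ← rel2]
      have e4 : ((nn G e f : ℤ) * ((nn G c d : ℤ) - 4) ^ 2) *
        (bz G c c ^ 2 * bz G d d ^ 2 * bz G e e * bz G f f) =
        ((nn G e f : ℤ) * (bz G e e * bz G f f)) *
          (((nn G c d : ℤ) * (bz G c c * bz G d d)) - 4 * (bz G c c * bz G d d)) ^ 2 := by ring
      rw [e4, nef, ncd]
      ring
    have hK : bz G c c ^ 2 * bz G d d ^ 2 * bz G e e * bz G f f ≠ 0 := by positivity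
    have e5 := mul_right_cancel₀ hK e3
    have e6 : ((nn G c d - 4 : ℕ) : ℤ) = (nn G c d : ℤ) - 4 := by
      rw [Nat.cast_sub h4.le]; rfl
    have e7 : ((nn G e f * (nn G c d - 4) ^ 2 : ℕ) : ℤ) = (nu : ℤ) := by
      rw [← e5, Nat.cast_mul, Nat.cast_pow, e6]
    exact_mod_cast e7
  · intro _
    have e3 : ((2 * (Nat.sqrt (nn G b e * nn G e f * nn G b f) : ℤ) +
        (nn G b e : ℤ) * (nn G b f : ℤ)) * ((nn G c d : ℤ) - 4)) *
        (bz G b b ^ 2 * bz G e e * bz G f f * (bz G c c * bz G d d)) =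
        64 * (bz G b e * bz G b f) * (bz G b b * S) := by
      rw [← rel]
      have e4 : ((2 * (Nat.sqrt (nn G b e * nn G e f * nn G b f) : ℤ) +
        (nn G b e : ℤ) * (nn G b f : ℤ)) * ((nn G c d : ℤ) - 4)) *
        (bz G b b ^ 2 * bz G e e * bz G f f * (bz G c c * bz G d d)) =
        (2 * ((Nat.sqrt (nn G b e * nn G e f * nn G b f) : ℤ) *
          (bz G b b * bz G e e * bz G f f)) * bz G b b +
        ((nn G b e : ℤ) * (bz G b b * bz G e e)) * ((nn G b f : ℤ) * (bz G b b * bz G f f))) *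
        ((nn G c d : ℤ) * (bz G c c * bz G d d) - 4 * (bz G c c * bz G d d)) := by ring
      rw [e4, t2, nbe, nbf, ncd]
      ring
    have hK : (bz G b b ^ 2 * bz G e e * bz G f f * (bz G c c * bz G d d)) ^ 2 ≠ 0 := by
      positivity
    have e5 : ((2 * (Nat.sqrt (nn G b e * nn G e f * nn G b f) : ℤ) +
        (nn G b e : ℤ) * (nn G b f : ℤ)) * ((nn G c d : ℤ) - 4)) ^ 2 =
        4 * (nu : ℤ) * ((nn G b e : ℤ) * (nn G b f : ℤ)) := by
      apply mul_right_cancel₀ hK
      rw [← mul_pow, e3]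
      have e6 : 4 * (nu : ℤ) * ((nn G b e : ℤ) * (nn G b f : ℤ)) *
          (bz G b b ^ 2 * bz G e e * bz G f f * (bz G c c * bz G d d)) ^ 2 =
          4 * ((nu : ℤ) * (bz G c c ^ 2 * bz G d d ^ 2 * bz G e e * bz G f f)) *
          (((nn G b e : ℤ) * (bz G b b * bz G e e)) * ((nn G b f : ℤ) * (bz G b b * bz G f f))) *
          bz G b b ^ 2 := by ring
      rw [e6, key, nbe, nbf]
      ring
    have e6 : ((nn G c d - 4 : ℕ) : ℤ) = (nn G c d : ℤ) - 4 := by
      rw [Nat.cast_sub h4.le]; rfl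
    have e7 : ((((2 * Nat.sqrt (nn G e f * M) + M) * (nn G c d - 4)) ^ 2 : ℕ) : ℤ) =
        ((4 * nu * M : ℕ) : ℤ) := by
      rw [Nat.cast_pow, Nat.cast_mul, e6, Nat.cast_mul, Nat.cast_mul]
      simp only [M]
      rw [q4]
      push_cast
      exact e5
    exact_mod_cast e7

end Pool.Agent.Refl.H92
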