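import Pool.Agent.Helper92_Refl.Lin

/-!
# DET: DetSignStmt, SepStmt, MixStmt
-/

namespace Pool.Agent.Refl.H92

open Matrix Pool.Agent.Refl

variable {G : M4} {n : ℕ} {e : Fin n → Z4} {O : R4}

/-- vertex data -/
theorem vertex_data (hP : VertexPosStmt) (hS : VertexStrictStmt) (h : Lat G)
    (hC : Cham G n e O) {i j k : Fin n} (hv : IsV G e i j k) :
    ∃ V : R4, V ≠ 0 ∧ (∀ m, br G V (up (e m)) ≤ 0) ∧ br G V (up (e i)) = 0 ∧
      br G V (up (e j)) = 0 ∧ br G V (up (e k)) = 0 ∧ br G V V < 0 ∧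
      (∀ m, m ≠ i → m ≠ j → m ≠ k → br G V (up (e m)) < 0) ∧
      0 < g3r G (up (e i)) (up (e j)) (up (e k)) (up (e k)) ∧
      dr (up (e i)) (up (e j)) (up (e k)) V ≠ 0 := by
  have hv' := hv
  obtain ⟨hij, hjk, hik, V, hV0, hVK, hVi, hVj, hVk⟩ := hv
  obtain ⟨h1, h2⟩ := hS G n e O h hC i j k hij hjk hik V hV0 hVK hVi hVj hVk
  have h3 : 0 < g3r G (up (e i)) (up (e j)) (up (e k)) (up (e k)) := by
    have h4 := (hP G n e O h hC i j k hv').2.2.2
    rw [← g3_cast]
    exact_mod_cast h4
  exact ⟨V, hV0, hVK, hVi, hVj, hVk, h1, h2, h3, dr_vertex_ne h hVi hVj hVk h1 h3⟩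

theorem detSign (hP : VertexPosStmt) (hS : VertexStrictStmt) : DetSignStmt := by
  intro G n e O h hC i j k l m hv hli hlj hlk hmi hmj hmk
  obtain ⟨V, hV0, hVK, hVi, hVj, hVk, hVV, hneg, hg, hD⟩ := vertex_data hP hS h hC hv
  have h1 := hneg l hli hlj hlk
  have h2 := hneg m hmi hmj hmk
  have h3 := dr_prop h hV0 hVi hVj hVk (up (e l)) V
  have h4 := dr_prop h hV0 hVi hVj hVk (up (e m)) V
  have h5 : dr (up (e i)) (up (e j)) (up (e k)) (up (e l)) *
      dr (up (e i)) (up (e j)) (up (e k)) (up (e m)) * (br G V V) ^ 2 =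
      dr (up (e i)) (up (e j)) (up (e k)) V ^ 2 * (br G V (up (e l)) * br G V (up (e m))) := by
    calc _ = (dr (up (e i)) (up (e j)) (up (e k)) (up (e l)) * br G V V) *
        (dr (up (e i)) (up (e j)) (up (e k)) (up (e m)) * br G V V) := by ring
      _ = _ := by rw [h3, h4]; ring
  have h6 : 0 < dr (up (e i)) (up (e j)) (up (e k)) V ^ 2 := by positivity
  have h7 : 0 < br G V (up (e l)) * br G V (up (e m)) := mul_pos_of_neg_of_neg h1 h2
  have h8 : 0 < (br G V V) ^ 2 := by
    have := hVV.ne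
    positivity
  have h9 : 0 < dr (up (e i)) (up (e j)) (up (e k)) (up (e l)) *
      dr (up (e i)) (up (e j)) (up (e k)) (up (e m)) := by
    have h10 : 0 < dr (up (e i)) (up (e j)) (up (e k)) (up (e l)) *
      dr (up (e i)) (up (e j)) (up (e k)) (up (e m)) * (br G V V) ^ 2 := by
      rw [h5]; exact mul_pos h6 h7
    exact (pos_iff_pos_of_mul_pos h10).2 h8
  rw [← d4_cast, ← d4_cast] at h9
  exact_mod_cast h9

/-- a root with the sign of the other facets at a vertex is nonpositive on the cone -/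
theorem nonpos_of_sign (hP : VertexPosStmt) (hS : VertexStrictStmt) (h : Lat G)
    (hC : Cham G n e O) {i j k l : Fin n} (hv : IsV G e i j k) (hli : l ≠ i) (hlj : l ≠ j)
    (hlk : l ≠ k) {r : Z4} (hr : IsRoot G r)
    (hs : 0 < d4 (e i) (e j) (e k) r * d4 (e i) (e j) (e k) (e l)) :
    (∀ x : R4, (∀ i, br G x (up (e i)) ≤ 0) → br G x (up r) ≤ 0) ∧
    ∀ V : R4, V ≠ 0 → (∀ m, br G V (up (e m)) ≤ 0) → br G V (up (e i)) = 0 →
      br G V (up (e j)) = 0 → br G V (up (e k)) = 0 → br G V (up r) < 0 := by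
  have key : ∀ V : R4, V ≠ 0 → (∀ m, br G V (up (e m)) ≤ 0) → br G V (up (e i)) = 0 →
      br G V (up (e j)) = 0 → br G V (up (e k)) = 0 → br G V (up r) < 0 := by
    intro V hV0 hVK hVi hVj hVk
    obtain ⟨hij, hjk, hik, -⟩ := hv
    have h1 := (hS G n e O h hC i j k hij hjk hik V hV0 hVK hVi hVj hVk).2 l hli hlj hlk
    have h3 := dr_prop h hV0 hVi hVj hVk (up r) (up (e l))
    have h4 : (0 : ℝ) < ((d4 (e i) (e j) (e k) r * d4 (e i) (e j) (e k) (e l) : ℤ) : ℝ) := by
      exact_mod_cast hs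
    push_cast at h4
    rw [d4_cast, d4_cast] at h4
    set A := dr (up (e i)) (up (e j)) (up (e k)) (up r)
    set B := dr (up (e i)) (up (e j)) (up (e k)) (up (e l))
    have hB : B ≠ 0 := by
      intro h0
      rw [h0, mul_zero] at h4
      exact lt_irrefl _ h4
    have h5 : B ^ 2 * br G V (up r) = (A * B) * br G V (up (e l)) := by
      calc B ^ 2 * br G V (up r) = B * (B * br G V (up r)) := by ring
        _ = _ := by rw [← h3]; ring
    have h6 : (A * B) * br G V (up (e l)) < 0 := mul_neg_of_pos_of_neg h4 h1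
    rw [← h5] at h6
    have h7 : 0 < B ^ 2 := by positivity
    by_contra hcon
    push Not at hcon
    have := mul_nonneg h7.le hcon
    linarith
  refine ⟨?_, key⟩
  rcases hC.sep r hr with h1 | h1
  · exact h1
  · exfalso
    obtain ⟨V, hV0, hVK, hVi, hVj, hVk, -⟩ := vertex_data hP hS h hC hv
    have h2 := h1 V hVK
    have h3 := key V hV0 hVK hVi hVj hVk
    linarith

theorem sep (hP : VertexPosStmt) (hS : VertexStrictStmt) : SepStmt := by
  intro G n e O h hC i j k l i' j' k' l' hv hli hlj hlk hv' hli' hlj' hlk' r hr hs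
  obtain ⟨hK, -⟩ := nonpos_of_sign hP hS h hC hv hli hlj hlk hr hs
  obtain ⟨V, hV0, hVK, hVi, hVj, hVk, hVV, hneg, hg, hD⟩ := vertex_data hP hS h hC hv'
  have h1 := hneg l' hli' hlj' hlk'
  have h2 := hK V hVK
  have h3 := dr_prop h hV0 hVi hVj hVk (up r) (up (e l'))
  have h4 : (0 : ℝ) ≤ ((d4 (e i') (e j') (e k') r * d4 (e i') (e j') (e k') (e l') : ℤ) : ℝ) := by
    push_cast
    rw [d4_cast, d4_cast]
    set A := dr (up (e i')) (up (e j')) (up (e k')) (up r)
    set B := dr (up (e i')) (up (e j')) (up (e k')) (up (e l'))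
    have h5 : (A * B) * br G V (up (e l')) = B ^ 2 * br G V (up r) := by
      calc (A * B) * br G V (up (e l')) = B * (A * br G V (up (e l'))) := by ring
        _ = _ := by rw [h3]; ring
    have h6 : B ^ 2 * br G V (up r) ≤ 0 := mul_nonpos_of_nonneg_of_nonpos (sq_nonneg _) h2
    rw [← h5] at h6
    by_contra hcon
    push Not at hcon
    have := mul_pos_of_neg_of_neg hcon h1
    linarith
  exact_mod_cast h4

/-- dual vectors of three vectors with nondegenerate Gram matrix -/
theorem exists_dual3 (h : Lat G) {a b c : R4} (hg : g3r G a b c c ≠ 0) (ta tb tc : ℝ) :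
    ∃ w : R4, br G w a = ta ∧ br G w b = tb ∧ br G w c = tc := by
  have h1 := h.bcomm b a
  have h2 := h.bcomm c a
  have h3 := h.bcomm c b
  rw [g3r_eq] at hg
  set A := br G a a
  set B := br G b b
  set C := br G c c
  set D := br G a b
  set E := br G a c
  set F := br G b c
  set Δ := A * B * C - A * F * F - D * D * C + D * F * E + E * D * F - E * B * E with hΔ
  have hΔ0 : Δ ≠ 0 := hg
  refine ⟨((ta * (B * C - F * F) - tb * (D * C - E * F) + tc * (D * F - E * B)) / Δ) • a +
    ((-ta * (D * C - E * F) + tb * (A * C - E * E) - tc * (A * F - D * E)) / Δ) • b +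
    ((ta * (D * F - B * E) - tb * (A * F - D * E) + tc * (A * B - D * D)) / Δ) • c, ?_, ?_, ?_⟩
  · simp only [br_add_left, br_smul_left]
    rw [h1, h2]
    field_simp
    rw [hΔ]
    ring
  · simp only [br_add_left, br_smul_left]
    rw [h3]
    field_simp
    rw [hΔ]
    ring
  · simp only [br_add_left, br_smul_left]
    field_simp
    rw [hΔ]
    ring

theorem mix (hP : VertexPosStmt) (hS : VertexStrictStmt) : MixStmt := by
  intro G n e O h hC i j k hv r hr D α β γ hD heq
  obtain ⟨V, hV0, hVK, hVi, hVj, hVk, hVV, hneg, hg, hDr⟩ := vertex_data hP hS h hC hv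
  have hij := hv.1
  have hjk := hv.2.1
  have hik := hv.2.2.1
  -- values of `r`
  have hrv : ∀ w : R4, (D : ℝ) * br G w (up r) = α * br G w (up (e i)) + β * br G w (up (e j)) +
      γ * br G w (up (e k)) := by
    intro w
    have h1 := congrArg up heq
    rw [up_smul, up_add, up_add, up_smul, up_smul, up_smul] at h1
    rw [← br_smul_right, h1, br_add_right, br_add_right, br_smul_right, br_smul_right,
      br_smul_right]
  have hVr : br G V (up r) = 0 := by
    have h1 := hrv V
    rw [hVi, hVj, hVk] at h1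
    have hD' : (D : ℝ) ≠ 0 := by exact_mod_cast hD.ne'
    have h2 : (D : ℝ) * br G V (up r) = 0 := by rw [h1]; ring
    exact (mul_eq_zero.1 h2).resolve_left hD'
  -- test vectors
  have key : ∀ ta tb tc : ℝ, ta ≤ 0 → tb ≤ 0 → tc ≤ 0 → ∀ σ : ℝ,
      (∀ x : R4, (∀ i, br G x (up (e i)) ≤ 0) → σ * br G x (up r) ≤ 0) →
      σ * (α * ta + β * tb + γ * tc) ≤ 0 := by
    intro ta tb tc hta htb htc σ hσ
    obtain ⟨w, hwa, hwb, hwc⟩ := exists_dual3 h hg.ne' ta tb tc
    obtain ⟨ε, hε, hε'⟩ := exists_small (G := G) (e := e) V w (fun m => by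
      by_cases hmi : m = i
      · right; rw [hmi]; exact ⟨hVi, by rw [hwa]; exact hta⟩
      by_cases hmj : m = j
      · right; rw [hmj]; exact ⟨hVj, by rw [hwb]; exact htb⟩
      by_cases hmk : m = k
      · right; rw [hmk]; exact ⟨hVk, by rw [hwc]; exact htc⟩
      · left; exact hneg m hmi hmj hmk)
    have h1 := hσ _ hε'
    rw [br_add_left, br_smul_left, hVr, zero_add] at h1
    have h2 := hrv w
    rw [hwa, hwb, hwc] at h2
    have hD' : (0 : ℝ) < D := by exact_mod_cast hD
    have h3 : σ * (α * ta + β * tb + γ * tc) = σ * (ε * br G w (up r)) * (D / ε) := by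
      rw [← h2]
      field_simp
    rw [h3]
    exact mul_nonpos_of_nonpos_of_nonneg h1 (by positivity)
  rcases hC.sep r hr with h1 | h1
  · left
    have h2 : ∀ x : R4, (∀ i, br G x (up (e i)) ≤ 0) → (1 : ℝ) * br G x (up r) ≤ 0 :=
      fun x hx => by rw [one_mul]; exact h1 x hx
    have ha := key (-1) 0 0 (by norm_num) le_rfl le_rfl 1 h2
    have hb := key 0 (-1) 0 le_rfl (by norm_num) le_rfl 1 h2
    have hc := key 0 0 (-1) le_rfl le_rfl (by norm_num) 1 h2
    refine ⟨?_, ?_, ?_⟩
    · have : (0 : ℝ) ≤ α := by linarith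
      exact_mod_cast this
    · have : (0 : ℝ) ≤ β := by linarith
      exact_mod_cast this
    · have : (0 : ℝ) ≤ γ := by linarith
      exact_mod_cast this
  · right
    have h2 : ∀ x : R4, (∀ i, br G x (up (e i)) ≤ 0) → (-1 : ℝ) * br G x (up r) ≤ 0 :=
      fun x hx => by have := h1 x hx; linarith
    have ha := key (-1) 0 0 (by norm_num) le_rfl le_rfl (-1) h2
    have hb := key 0 (-1) 0 le_rfl (by norm_num) le_rfl (-1) h2
    have hc := key 0 0 (-1) le_rfl le_rfl (by norm_num) (-1) h2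
    refine ⟨?_, ?_, ?_⟩
    · have : (α : ℝ) ≤ 0 := by linarith
      exact_mod_cast this
    · have : (β : ℝ) ≤ 0 := by linarith
      exact_mod_cast this
    · have : (γ : ℝ) ≤ 0 := by linarith
      exact_mod_cast this

theorem vertexIso (hP : VertexPosStmt) (hS : VertexStrictStmt) : VertexIsoStmt := by
  intro G n e O h hC i j k i' j' k' m m' hv hv' hmi hmj hmk hmi' hmj' hmk' g hg hgi hgj hgk hs
  obtain ⟨V, hV0, hVK, hVi, hVj, hVk, hVV, hneg, hgd, hDr⟩ := vertex_data hP hS h hC hv
  obtain ⟨V', hV0', hVK', hVi', hVj', hVk', hVV', hneg', hgd', hDr'⟩ :=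
    vertex_data hP hS h hC hv'
  -- `g V` is proportional to `V'`
  have hUi : br G (act (g : M4) V) (up (e i')) = 0 := by
    rw [← hgi, ← act_up, br_OG hg, hVi]
  have hUj : br G (act (g : M4) V) (up (e j')) = 0 := by
    rw [← hgj, ← act_up, br_OG hg, hVj]
  have hUk : br G (act (g : M4) V) (up (e k')) = 0 := by
    rw [← hgk, ← act_up, br_OG hg, hVk]
  have hU0 : act (g : M4) V ≠ 0 := by
    intro h0
    apply hV0
    rw [← act_inv_act g V, h0]
    simp [act]
  set D' := dr (up (e i')) (up (e j')) (up (e k')) with hD'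
  set μ : ℝ := br G (act (g : M4) V) V' / br G V' V' with hμ
  have hU : act (g : M4) V = μ • V' := by
    rw [← sub_eq_zero]
    apply h.nondeg
    intro y
    have h1 := dr_prop h hV0' hVi' hVj' hVk' y V'
    have h2 := dr_prop h hU0 hUi hUj hUk y V'
    rw [← hD'] at h1 h2
    have hD0 : D' V' ≠ 0 := hDr'
    have hVV0 := hVV'.ne
    rw [br_sub_left, br_smul_left, hμ]
    have h3 : br G V' y = D' y * br G V' V' / D' V' := by
      rw [eq_div_iff hD0]
      linarith
    have h4 : br G (act (g : M4) V) y = D' y * br G (act (g : M4) V) V' / D' V' := by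
      rw [eq_div_iff hD0]
      linarith
    rw [h3, h4]
    field_simp
    ring
  -- `μ > 0`
  have hμ0 : 0 < μ := by
    have h1 : br G (act (g : M4) V) (up ((g : M4).mulVec (e m))) < 0 := by
      rw [← act_up, br_OG hg]
      exact hneg m hmi hmj hmk
    rw [hU, br_smul_left] at h1
    have h2 := dr_prop h hV0' hVi' hVj' hVk' (up ((g : M4).mulVec (e m))) (up (e m'))
    have h3 : (0 : ℝ) < ((d4 (e i') (e j') (e k') ((g : M4).mulVec (e m)) *
        d4 (e i') (e j') (e k') (e m') : ℤ) : ℝ) := by exact_mod_cast hs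
    push_cast at h3
    rw [d4_cast, d4_cast] at h3
    have h4 := hneg' m' hmi' hmj' hmk'
    set A := dr (up (e i')) (up (e j')) (up (e k')) (up ((g : M4).mulVec (e m)))
    set B := dr (up (e i')) (up (e j')) (up (e k')) (up (e m'))
    set X := br G V' (up ((g : M4).mulVec (e m)))
    have hB : B ≠ 0 := by
      intro h0
      rw [h0, mul_zero] at h3
      exact lt_irrefl _ h3
    have h5 : B ^ 2 * X = (A * B) * br G V' (up (e m')) := by
      calc B ^ 2 * X = B * (B * X) := by ring
        _ = _ := by rw [← h2]; ring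
    have h6 : (A * B) * br G V' (up (e m')) < 0 := mul_neg_of_pos_of_neg h3 h4
    rw [← h5] at h6
    have h7 : 0 < B ^ 2 := by positivity
    have hX : X < 0 := by
      by_contra hcon
      push Not at hcon
      have := mul_nonneg h7.le hcon
      linarith
    by_contra hcon
    push Not at hcon
    have := mul_nonneg_of_nonpos_of_nonpos hcon hX.le
    linarith
  -- an interior point near `V`
  obtain ⟨w, hwa, hwb, hwc⟩ := exists_dual3 h hgd.ne' (-1) (-1) (-1)
  have hpos : ∀ (W z : R4) (a b c : Fin n), (∀ m, m ≠ a → m ≠ b → m ≠ c → br G W (up (e m)) < 0) →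
      br G W (up (e a)) = 0 → br G W (up (e b)) = 0 → br G W (up (e c)) = 0 →
      br G z (up (e a)) = -1 → br G z (up (e b)) = -1 → br G z (up (e c)) = -1 →
      ∃ ε0 : ℝ, 0 < ε0 ∧ ∀ ε : ℝ, 0 < ε → ε ≤ ε0 → ∀ m, br G (W + ε • z) (up (e m)) < 0 := by
    intro W z a b c hW hWa hWb hWc hza hzb hzc
    obtain ⟨ε, hε, hε'⟩ := exists_small (G := G) (e := e) W z (fun m => by
      by_cases hma : m = a
      · right; rw [hma]; exact ⟨hWa, by rw [hza]; norm_num⟩
      by_cases hmb : m = b
      · right; rw [hmb]; exact ⟨hWb, by rw [hzb]; norm_num⟩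
      by_cases hmc : m = c
      · right; rw [hmc]; exact ⟨hWc, by rw [hzc]; norm_num⟩
      · left; exact hW m hma hmb hmc)
    refine ⟨ε / 2, by positivity, fun δ hδ hδ' m => ?_⟩
    by_cases hma : m = a
    · rw [hma, br_add_left, br_smul_left, hWa, hza]; linarith
    by_cases hmb : m = b
    · rw [hmb, br_add_left, br_smul_left, hWb, hzb]; linarith
    by_cases hmc : m = c
    · rw [hmc, br_add_left, br_smul_left, hWc, hzc]; linarith
    have h1 := hε' m
    rw [br_add_left, br_smul_left] at h1 ⊢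
    have h2 := hW m hma hmb hmc
    by_contra hcon
    push Not at hcon
    -- `W + δ z ≥ 0`, `W < 0` so `z > 0` and `W + ε z > 0`
    have h3 : 0 < δ * br G z (up (e m)) := by linarith
    have h4 : 0 < br G z (up (e m)) := (pos_iff_pos_of_mul_pos h3).1 hδ
    have h5 : δ * br G z (up (e m)) < ε * br G z (up (e m)) :=
      mul_lt_mul_of_pos_right (by linarith) h4
    linarith
  obtain ⟨ε1, hε1, hε1'⟩ := hpos V w i j k hneg hVi hVj hVk hwa hwb hwc
  have hgw : ∀ a a' : Fin n, (g : M4).mulVec (e a) = e a' → br G w (up (e a)) = -1 →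
      br G (act (g : M4) w) (up (e a')) = -1 := by
    intro a a' haa hwa
    rw [← haa, ← act_up, br_OG hg, hwa]
  obtain ⟨ε2, hε2, hε2'⟩ := hpos (μ • V') (act (g : M4) w) i' j' k'
    (fun m h1 h2 h3 => by
      rw [br_smul_left]; exact mul_neg_of_pos_of_neg hμ0 (hneg' m h1 h2 h3))
    (by rw [br_smul_left, hVi', mul_zero]) (by rw [br_smul_left, hVj', mul_zero])
    (by rw [br_smul_left, hVk', mul_zero]) (hgw i i' hgi hwa) (hgw j j' hgj hwb)
    (hgw k k' hgk hwc)
  have hε : 0 < min ε1 ε2 := lt_min hε1 hε2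
  refine perm G n e O h hC g hg (V + (min ε1 ε2) • w) (hε1' _ hε (min_le_left _ _)) ?_
  rw [act_add, act_smul, hU]
  exact hε2' _ hε (min_le_right _ _)

end Pool.Agent.Refl.H92
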