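import Pool.Agent.Helper92_Refl.Perm

/-!
# Linear algebra at vertices and edges
-/

namespace Pool.Agent.Refl.H92

open Matrix Pool.Agent.Refl

variable {G : M4}

/-- real Gram matrix of the lattice -/
def gR4 (G : M4) : Matrix (Fin 4) (Fin 4) ℝ := G.map (Int.cast : ℤ → ℝ)

theorem det_gR4 (G : M4) : (gR4 G).det = (G.det : ℝ) := ((Int.castRingHom ℝ).map_det G).symm

/-- determinant of four real vectors -/
noncomputable def dr (a b c d : R4) : ℝ := (Matrix.of ![a, b, c, d]).det

theorem d4_cast (a b c d : Z4) : ((d4 a b c d : ℤ) : ℝ) = dr (up a) (up b) (up c) (up d) := by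
  unfold d4 dr
  have h := (Int.castRingHom ℝ).map_det (Matrix.of ![a, b, c, d])
  rw [show ((Matrix.of ![a, b, c, d]).det : ℝ) = (Int.castRingHom ℝ) (Matrix.of ![a, b, c, d]).det
    from rfl, h]
  congr 1
  ext i j
  fin_cases i <;> rfl

theorem dr_add (a b c x y : R4) : dr a b c (x + y) = dr a b c x + dr a b c y := by
  unfold dr
  simp only [Matrix.det_succ_row_zero, Fin.sum_univ_succ]
  simp [Fin.succAbove, Matrix.submatrix]
  ring

theorem dr_smul (a b c : R4) (t : ℝ) (x : R4) : dr a b c (t • x) = t * dr a b c x := by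
  unfold dr
  simp only [Matrix.det_succ_row_zero, Fin.sum_univ_succ]
  simp [Fin.succAbove, Matrix.submatrix]
  ring

theorem dr_sub (a b c x y : R4) : dr a b c (x - y) = dr a b c x - dr a b c y := by
  have : x - y = x + (-1 : ℝ) • y := by simp [sub_eq_add_neg]
  rw [this, dr_add, dr_smul]
  ring

/-- four vectors orthogonal to a nonzero vector are dependent -/
theorem dr_eq_zero (h : Lat G) {a b c d V : R4} (hV : V ≠ 0) (ha : br G V a = 0)
    (hb : br G V b = 0) (hc : br G V c = 0) (hd : br G V d = 0) : dr a b c d = 0 := by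
  unfold dr
  apply Matrix.exists_mulVec_eq_zero_iff.1
  refine ⟨(gR4 G).mulVec V, ?_, ?_⟩
  · intro h0
    apply hV
    apply h.nondeg
    intro y
    rw [h.bcomm, br_eq_dot]
    unfold gR4 at h0
    rw [h0, dotProduct_zero]
  · have hh : ∀ x : R4, x ⬝ᵥ (gR4 G).mulVec V = br G V x := by
      intro x
      rw [h.bcomm, br_eq_dot]
      rfl
    ext i
    simp only [Matrix.mulVec, Matrix.of_apply, Pi.zero_apply]
    fin_cases i
    · exact (hh a).trans ha
    · exact (hh b).trans hb
    · exact (hh c).trans hc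
    · exact (hh d).trans hd

theorem dr_prop (h : Lat G) {a b c V : R4} (hV : V ≠ 0) (ha : br G V a = 0)
    (hb : br G V b = 0) (hc : br G V c = 0) (x y : R4) :
    dr a b c x * br G V y = dr a b c y * br G V x := by
  have h1 : dr a b c (br G V y • x - br G V x • y) = 0 := by
    apply dr_eq_zero h hV ha hb hc
    rw [br_sub_right, br_smul_right, br_smul_right]
    ring
  rw [dr_sub, dr_smul, dr_smul] at h1
  linarith

/-- Gram matrix of four vectors -/
theorem gram4 (f : Fin 4 → R4) :
    (Matrix.of fun i j => br G (f i) (f j)).det = (Matrix.of f).det ^ 2 * (G.det : ℝ) := by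
  have h1 : (Matrix.of fun i j => br G (f i) (f j)) =
      Matrix.of f * gR4 G * (Matrix.of f).transpose := by
    ext i j
    rw [Matrix.mul_assoc, Matrix.of_apply, br_eq_dot]
    simp only [Matrix.mul_apply, Matrix.of_apply, dotProduct, Matrix.mulVec,
      Matrix.transpose_apply, gR4]
  rw [h1, Matrix.det_mul, Matrix.det_mul, Matrix.det_transpose, det_gR4]
  ring

theorem orth4 (h : Lat G) (f : Fin 4 → R4)
    (hf : (Matrix.of fun i j => br G (f i) (f j)).det ≠ 0) {z : R4}
    (hz : ∀ i, br G (f i) z = 0) : z = 0 := by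
  rw [gram4] at hf
  have hdet : (Matrix.of f).det ≠ 0 := by
    intro h0
    rw [h0] at hf
    simp at hf
  have h1 : (Matrix.of f).mulVec ((gR4 G).mulVec z) = 0 := by
    ext i
    have h2 := hz i
    rw [br_eq_dot] at h2
    exact h2
  have h2 : (gR4 G).mulVec z = 0 := by
    by_contra hne
    exact hdet (Matrix.exists_mulVec_eq_zero_iff.1 ⟨_, hne, h1⟩)
  apply h.nondeg
  intro y
  rw [h.bcomm, br_eq_dot]
  unfold gR4 at h2
  rw [h2, dotProduct_zero]

/-- real bordered Gram determinant -/
noncomputable def g3r (G : M4) (a b k x : R4) : ℝ :=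
  (Matrix.of ![![br G a a, br G a b, br G a x], ![br G a b, br G b b, br G b x],
    ![br G a k, br G b k, br G k x]]).det

theorem g3_cast (a b k x : Z4) :
    ((g3 G a b k x : ℤ) : ℝ) = g3r G (up a) (up b) (up k) (up x) := by
  unfold g3 g3r
  rw [Matrix.det_fin_three, Matrix.det_fin_three]
  simp only [br_up]
  simp

theorem g2_cast (a b : Z4) : ((g2 G a b : ℤ) : ℝ) =
    br G (up a) (up a) * br G (up b) (up b) - br G (up a) (up b) ^ 2 := by
  unfold g2
  simp only [br_up]
  push_cast
  ring

theorem g3r_eq (a b k x : R4) : g3r G a b k x =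
    br G a a * br G b b * br G k x - br G a a * br G b x * br G b k -
    br G a b * br G a b * br G k x + br G a b * br G b x * br G a k +
    br G a x * br G a b * br G b k - br G a x * br G b b * br G a k := by
  unfold g3r
  rw [Matrix.det_fin_three]
  simp

/-- at a vertex -/
theorem dr_vertex (h : Lat G) {a b c V : R4} (ha : br G V a = 0)
    (hb : br G V b = 0) (hc : br G V c = 0) :
    dr a b c V ^ 2 * (G.det : ℝ) = g3r G a b c c * br G V V := by
  have h1 := gram4 (G := G) ![a, b, c, V]
  unfold dr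
  rw [← h1, Matrix.det_succ_row_zero]
  simp only [Fin.sum_univ_succ, Fin.succAbove, Matrix.submatrix, Matrix.det_fin_three]
  simp
  rw [g3r_eq, h.bcomm a V, h.bcomm b V, h.bcomm c V, ha, hb, hc, h.bcomm b a, h.bcomm c a,
    h.bcomm c b]
  ring

theorem dr_vertex_ne (h : Lat G) {a b c V : R4} (ha : br G V a = 0)
    (hb : br G V b = 0) (hc : br G V c = 0) (hV : br G V V < 0) (hg : 0 < g3r G a b c c) :
    dr a b c V ≠ 0 := by
  intro h0
  have h1 := dr_vertex h ha hb hc
  rw [h0] at h1
  have h2 := mul_neg_of_pos_of_neg hg hV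
  linarith

end Pool.Agent.Refl.H92
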