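import Pool.Agent.Helper84_Refl.Base2

/-!
# PERM: isometries permute facets
-/

namespace Pool.Agent.Refl.H92

open Matrix Pool.Agent.Refl

variable {G : M4} {n : ℕ} {e : Fin n → Z4} {O : R4}

/-- small perturbations along `w` stay in the cone -/
theorem exists_small (z w : R4) (h : ∀ i, br G z (up (e i)) < 0 ∨
    (br G z (up (e i)) = 0 ∧ br G w (up (e i)) ≤ 0)) :
    ∃ ε : ℝ, 0 < ε ∧ ∀ i, br G (z + ε • w) (up (e i)) ≤ 0 := by
  have h1 : ∀ i, ∃ ε : ℝ, 0 < ε ∧ ∀ δ : ℝ, 0 < δ → δ ≤ ε →
      br G (z + δ • w) (up (e i)) ≤ 0 := by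
    intro i
    rcases h i with h2 | ⟨h2, h3⟩
    · refine ⟨-br G z (up (e i)) / (|br G w (up (e i))| + 1), ?_, ?_⟩
      · apply div_pos (by linarith) (by positivity)
      · intro δ hδ hδ'
        rw [br_add_left, br_smul_left]
        rw [le_div_iff₀ (by positivity)] at hδ'
        have h4 : δ * br G w (up (e i)) ≤ δ * |br G w (up (e i))| :=
          mul_le_mul_of_nonneg_left (le_abs_self _) hδ.le
        nlinarith
    · refine ⟨1, one_pos, fun δ hδ _ => ?_⟩
      rw [br_add_left, br_smul_left, h2, zero_add]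
      exact mul_nonpos_of_nonneg_of_nonpos hδ.le h3
  choose ε hε hε' using h1
  rcases Nat.eq_zero_or_pos n with h0 | h0
  · subst h0
    exact ⟨1, one_pos, fun i => i.elim0⟩
  · have : Nonempty (Fin n) := ⟨⟨0, h0⟩⟩
    refine ⟨Finset.univ.inf' Finset.univ_nonempty ε, ?_, fun i => hε' i _ ?_ ?_⟩
    · rw [Finset.lt_inf'_iff]
      exact fun i _ => hε i
    · rw [Finset.lt_inf'_iff]
      exact fun i _ => hε i
    · exact Finset.inf'_le _ (Finset.mem_univ i)

/-- functional vanishing on the orthogonal complement of `e` -/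
theorem eq_of_half (h : Lat G) {a s : R4} (ha : 0 < br G a a)
    (hs : ∀ w, br G w a = 0 → br G w s = 0) : s = (br G a s / br G a a) • a := by
  rw [← sub_eq_zero]
  apply h.nondeg
  intro v
  have h1 : br G (v - (br G v a / br G a a) • a) a = 0 := by
    rw [br_sub_left, br_smul_left]
    field_simp
    ring
  have h2 := hs _ h1
  rw [br_sub_left, br_smul_left] at h2
  rw [h.bcomm, br_sub_right, br_smul_right]
  have h3 : br G v s = br G v a / br G a a * br G a s := by linarith
  rw [h3]
  ring

theorem prim_eq {s r : Z4} (hs : Prim4 s) (hr : Prim4 r) {c : ℝ}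
    (h : up s = c • up r) (hc : 0 < c) (hq : ∃ p q : ℤ, q ≠ 0 ∧ c = p / q) : s = r := by
  obtain ⟨p, q, hq0, rfl⟩ := hq
  have h1 : ∀ i, q * s i = p * r i := by
    intro i
    have h2 := congrFun h i
    simp only [up, Pi.smul_apply, smul_eq_mul] at h2
    have hq' : (q : ℝ) ≠ 0 := by exact_mod_cast hq0
    have h3 : (q : ℝ) * (s i : ℝ) = (p : ℝ) * (r i : ℝ) := by
      rw [h2]
      field_simp
    exact_mod_cast h3
  have hqp : q ∣ p := prim_dvd hr (fun i => ⟨s i, (h1 i).symm⟩)
  have hpq : p ∣ q := prim_dvd hs (fun i => ⟨r i, h1 i⟩)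
  have h2 : p = q := by
    rcases Int.natAbs_eq_natAbs_iff.1 (Int.natAbs_eq_of_dvd_dvd hpq hqp) with h3 | h3
    · exact h3
    · exfalso
      rw [h3] at hc
      have hq' : (q : ℝ) ≠ 0 := by exact_mod_cast hq0
      have h4 : ((-q : ℤ) : ℝ) / (q : ℝ) = -1 := by
        push_cast
        field_simp
      rw [h4] at hc
      linarith
  subst h2
  ext i
  exact mul_left_cancel₀ hq0 (h1 i)

/-- a root which is nonpositive on the cone and vanishes at a point of the relative interior of a
facet is the root of this facet -/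
theorem eq_of_facet (h : Lat G) (hC : Cham G n e O) {i : Fin n} {z : R4}
    (hzi : br G z (up (e i)) = 0) (hz : ∀ j, j ≠ i → br G z (up (e j)) < 0) {s : Z4}
    (hs : IsRoot G s) (hsK : ∀ y : R4, (∀ j, br G y (up (e j)) ≤ 0) → br G y (up s) ≤ 0)
    (hsz : br G z (up s) = 0) : s = e i := by
  have h1 : ∀ w, br G w (up (e i)) ≤ 0 → br G w (up s) ≤ 0 := by
    intro w hw
    obtain ⟨ε, hε, hε'⟩ := exists_small (G := G) (e := e) z w (fun j => by
      by_cases hj : j = i
      · right; rw [hj]; exact ⟨hzi, hw⟩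
      · left; exact hz j hj)
    have h2 := hsK _ hε'
    rw [br_add_left, br_smul_left, hsz, zero_add] at h2
    by_contra hcon
    push Not at hcon
    have := mul_pos hε hcon
    linarith
  have hpos : 0 < br G (up (e i)) (up (e i)) := (hC.root i).pos_real
  have h2 : up s = (br G (up (e i)) (up s) / br G (up (e i)) (up (e i))) • up (e i) := by
    apply eq_of_half h hpos
    intro w hw
    apply le_antisymm (h1 w hw.le)
    have h3 := h1 (-w) (by rw [br_neg_left, hw]; simp)
    rw [br_neg_left] at h3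
    linarith
  refine prim_eq hs.prim (hC.root i).prim h2 ?_
    ⟨bz G (e i) s, bz G (e i) (e i), (hC.root i).pos.ne', by rw [br_up, br_up]⟩
  have h3 := hsK O (fun j => (hC.neg j).le)
  have h4 : br G O (up s) = br G (up (e i)) (up s) / br G (up (e i)) (up (e i)) *
      br G O (up (e i)) := by
    conv_lhs => rw [h2]
    rw [br_smul_right]
  have h5 := hC.neg i
  rcases lt_trichotomy (br G (up (e i)) (up s) / br G (up (e i)) (up (e i))) 0 with h6 | h6 | h6
  · have := mul_pos_of_neg_of_neg h6 h5
    linarith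
  · exfalso
    rw [h6, zero_smul, up_eq_zero] at h2
    exact hs.ne_zero h2
  · exact h6

/-- a point in the relative interior of a facet -/
noncomputable def foot (G : M4) (O : R4) (r : Z4) : R4 :=
  O - (br G O (up r) / br G (up r) (up r)) • up r

theorem foot_self {r : Z4} (hr : IsRoot G r) : br G (foot G O r) (up r) = 0 := by
  have := hr.pos_real
  unfold foot
  rw [br_sub_left, br_smul_left]
  field_simp
  ring

theorem foot_neg (hC : Cham G n e O) {i j : Fin n} (hij : j ≠ i) :
    br G (foot G O (e i)) (up (e j)) < 0 := by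
  have h1 := (hC.root i).pos_real
  have h2 := hC.neg i
  have h3 := hC.neg j
  have h4 : br G (up (e i)) (up (e j)) ≤ 0 := by
    rw [br_up]
    exact_mod_cast hC.obt i j hij.symm
  unfold foot
  rw [br_sub_left, br_smul_left]
  have h5 : 0 ≤ br G O (up (e i)) / br G (up (e i)) (up (e i)) * br G (up (e i)) (up (e j)) :=
    mul_nonneg_of_nonpos_of_nonpos (div_nonpos_of_nonpos_of_nonneg h2.le h1.le) h4
  linarith

/-- the images of the facet roots are nonpositive on the cone -/
theorem map_nonpos (hC : Cham G n e O) {g : M4ˣ} (hg : g ∈ OG G) {x : R4}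
    (hx : ∀ i, br G x (up (e i)) < 0) (hgx : ∀ i, br G (act (g : M4) x) (up (e i)) < 0)
    (i : Fin n) : ∀ y : R4, (∀ j, br G y (up (e j)) ≤ 0) →
      br G y (up ((g : M4).mulVec (e i))) ≤ 0 := by
  rcases hC.sep _ ((hC.root i).map hg) with h1 | h1
  · exact h1
  · exfalso
    have h2 := h1 _ (fun j => (hgx j).le)
    rw [← act_up, br_OG hg] at h2
    linarith [hx i]

theorem perm : PermStmt := by
  intro G n e O h hC g hg x hx hgx i
  have hg' : g⁻¹ ∈ OG G := (OG G).inv_mem hg
  have hK := map_nonpos hC hg hx hgx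
  have hx' : ∀ i, br G (act ((g⁻¹ : M4ˣ) : M4) (act (g : M4) x)) (up (e i)) < 0 := by
    intro i
    rw [act_inv_act]
    exact hx i
  have hK' := map_nonpos hC hg' hgx hx'
  set z := foot G O (e i) with hz
  have hzi : br G z (up (e i)) = 0 := foot_self (hC.root i)
  have hzj : ∀ j, j ≠ i → br G z (up (e j)) < 0 := fun j hj => foot_neg hC hj
  have hzK : ∀ j, br G z (up (e j)) ≤ 0 := fun j => by
    by_cases hj : j = i
    · rw [hj, hzi]
    · exact (hzj j hj).le
  -- `g z` is on the boundary
  have hex : ∃ j, br G (act (g : M4) z) (up (e j)) = 0 := by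
    by_contra hcon
    push Not at hcon
    have hneg : ∀ j, br G (act (g : M4) z) (up (e j)) < 0 := by
      intro j
      have h1 : br G (act (g : M4) z) (up (e j)) ≤ 0 := by
        have h2 := hK' j z hzK
        rw [← act_up] at h2
        have h3 := br_OG hg z (act ((g⁻¹ : M4ˣ) : M4) (up (e j)))
        rw [act_act_inv] at h3
        rw [h3]
        exact h2
      exact lt_of_le_of_ne h1 (hcon j)
    have h2 : br G (act (g : M4) z) (up ((g : M4).mulVec (e i))) = 0 := by
      rw [← act_up, br_OG hg, hzi]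
    have h3 : up ((g : M4).mulVec (e i)) = 0 := by
      apply h.nondeg
      intro w
      have h4 : ∀ w, br G w (up ((g : M4).mulVec (e i))) ≤ 0 := by
        intro w
        obtain ⟨ε, hε, hε'⟩ := exists_small (G := G) (e := e) (act (g : M4) z) w
          (fun j => Or.inl (hneg j))
        have h5 := hK i _ hε'
        rw [br_add_left, br_smul_left, h2, zero_add] at h5
        by_contra hc
        push Not at hc
        have := mul_pos hε hc
        linarith
      have h5 := h4 w
      have h6 := h4 (-w)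
      rw [br_neg_left] at h6
      rw [h.bcomm]
      linarith
    exact ((hC.root i).map hg).ne_zero (up_eq_zero.1 h3)
  obtain ⟨j, hj⟩ := hex
  refine ⟨j, ?_⟩
  have h1 : ((g⁻¹ : M4ˣ) : M4).mulVec (e j) = e i := by
    refine eq_of_facet h hC hzi hzj ((hC.root j).map hg') (hK' j) ?_
    rw [← act_up]
    have h3 := br_OG hg z (act ((g⁻¹ : M4ˣ) : M4) (up (e j)))
    rw [act_act_inv] at h3
    rw [← h3]
    exact hj
  rw [← h1, mulVec_inv']

end Pool.Agent.Refl.H92
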