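import Pool.Agent.Helper92_Refl.Det

/-!
# STEP: EndsNegStmt, StepStmt
-/

namespace Pool.Agent.Refl.H92

open Matrix Pool.Agent.Refl

variable {G : M4} {n : ℕ} {e : Fin n → Z4} {O : R4}

/-- nonzero vectors of the cone are on the sheet of `O` -/
theorem cone_neg (h : Lat G) (hC : Cham G n e O) (hn : 0 < n) {V : R4} (hV0 : V ≠ 0)
    (hV : ∀ i, br G V (up (e i)) ≤ 0) : br G V O < 0 := by
  obtain ⟨c, hc, hcpt⟩ := hC.cpt
  have hO := hC.Oneg
  by_contra hcon
  push Not at hcon
  rcases hcon.eq_or_lt with h1 | h1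
  · have h2 := h.pos hO h1.symm hV0
    have h3 := hcpt V hV
    rw [← h1] at h3
    nlinarith
  · set t : ℝ := -(br G O O / br G V O) with ht
    have ht0 : 0 < t := by
      rw [ht]
      have := div_neg_of_neg_of_pos hO h1
      linarith
    have h2 : ∀ i, br G (O + t • V) (up (e i)) ≤ 0 := by
      intro i
      rw [br_add_left, br_smul_left]
      have := mul_nonpos_of_nonneg_of_nonpos ht0.le (hV i)
      linarith [hC.neg i]
    have h3 : br G (O + t • V) O = 0 := by
      rw [br_add_left, br_smul_left, ht]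
      field_simp
      ring
    have h4 := hcpt _ h2
    rw [h3] at h4
    have h5 : O + t • V = 0 := by
      by_contra hne
      have := h.pos hO h3 hne
      nlinarith
    have h6 : br G (O + t • V) (up (e ⟨0, hn⟩)) = 0 := by rw [h5]; simp
    rw [br_add_left, br_smul_left] at h6
    have := mul_nonpos_of_nonneg_of_nonpos ht0.le (hV ⟨0, hn⟩)
    linarith [hC.neg ⟨0, hn⟩]

theorem edge_formula (h : Lat G) {a b V W : R4} (hVa : br G V a = 0) (hVb : br G V b = 0)
    (hWa : br G W a = 0) (hWb : br G W b = 0)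
    (hg : br G a a * br G b b - br G a b ^ 2 ≠ 0)
    (hΔ : br G V V * br G W W - br G V W ^ 2 ≠ 0) (x y : R4) :
    (br G V V * br G W W - br G V W ^ 2) * g3r G a b x y =
      (br G a a * br G b b - br G a b ^ 2) * (br G W W * (br G V x * br G V y) -
        br G V W * (br G V x * br G W y + br G W x * br G V y) +
        br G V V * (br G W x * br G W y)) := by
  have hba := h.bcomm b a
  have hWV := h.bcomm W V
  have haV : br G a V = 0 := by rw [h.bcomm]; exact hVa
  have hbV : br G b V = 0 := by rw [h.bcomm]; exact hVb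
  have haW : br G a W = 0 := by rw [h.bcomm]; exact hWa
  have hbW : br G b W = 0 := by rw [h.bcomm]; exact hWb
  obtain ⟨s1, hs1⟩ : ∃ s1 : ℝ, (br G a a * br G b b - br G a b ^ 2) * s1 =
      br G a x * br G b b - br G b x * br G a b := ⟨_, mul_div_cancel₀ _ hg⟩
  obtain ⟨s2, hs2⟩ : ∃ s2 : ℝ, (br G a a * br G b b - br G a b ^ 2) * s2 =
      br G a a * br G b x - br G a b * br G a x := ⟨_, mul_div_cancel₀ _ hg⟩
  obtain ⟨s3, hs3⟩ : ∃ s3 : ℝ, (br G V V * br G W W - br G V W ^ 2) * s3 =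
      br G V x * br G W W - br G W x * br G V W := ⟨_, mul_div_cancel₀ _ hΔ⟩
  obtain ⟨s4, hs4⟩ : ∃ s4 : ℝ, (br G V V * br G W W - br G V W ^ 2) * s4 =
      br G V V * br G W x - br G V W * br G V x := ⟨_, mul_div_cancel₀ _ hΔ⟩
  have hz : x - (s1 • a + s2 • b + s3 • V + s4 • W) = 0 := by
    refine orth4 h ![a, b, V, W] ?_ ?_
    · have h1 : (Matrix.of fun i j => br G ((![a, b, V, W] : Fin 4 → R4) i)
          ((![a, b, V, W] : Fin 4 → R4) j)).det =
          (br G a a * br G b b - br G a b ^ 2) * (br G V V * br G W W - br G V W ^ 2) := by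
        rw [Matrix.det_succ_row_zero]
        simp only [Fin.sum_univ_succ, Fin.succAbove, Matrix.submatrix, Matrix.det_fin_three]
        simp
        rw [haV, hbV, haW, hbW, hVa, hVb, hWa, hWb, hba, hWV]
        ring
      rw [h1]
      exact mul_ne_zero hg hΔ
    · intro i
      fin_cases i
      · change br G a _ = 0
        simp only [br_sub_right, br_add_right, br_smul_right]
        rw [haV, haW]
        refine (mul_eq_zero.1 ?_).resolve_left hg
        linear_combination (-br G a a) * hs1 - br G a b * hs2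
      · change br G b _ = 0
        simp only [br_sub_right, br_add_right, br_smul_right]
        rw [hbV, hbW, hba]
        refine (mul_eq_zero.1 ?_).resolve_left hg
        linear_combination (-br G a b) * hs1 - br G b b * hs2
      · change br G V _ = 0
        simp only [br_sub_right, br_add_right, br_smul_right]
        rw [hVa, hVb]
        refine (mul_eq_zero.1 ?_).resolve_left hΔ
        linear_combination (-br G V V) * hs3 - br G V W * hs4
      · change br G W _ = 0
        simp only [br_sub_right, br_add_right, br_smul_right]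
        rw [hWa, hWb, hWV]
        refine (mul_eq_zero.1 ?_).resolve_left hΔ
        linear_combination (-br G V W) * hs3 - br G W W * hs4
  have hxy : br G x y = s1 * br G a y + s2 * br G b y + s3 * br G V y + s4 * br G W y := by
    have h1 : x = s1 • a + s2 • b + s3 • V + s4 • W := sub_eq_zero.1 hz
    conv_lhs => rw [h1]
    simp only [br_add_left, br_smul_left]
  rw [g3r_eq, hxy]
  set Dg := br G a a * br G b b - br G a b ^ 2 with hDg
  set DV := br G V V * br G W W - br G V W ^ 2 with hDV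
  linear_combination (DV * br G a y) * hs1 + (DV * br G b y) * hs2 + (Dg * br G V y) * hs3 +
    (Dg * br G W y) * hs4

/-- the data of an edge -/
theorem edge_data (hP : VertexPosStmt) (hS : VertexStrictStmt) (h : Lat G)
    (hC : Cham G n e O) {i j k l : Fin n} (hkl : k ≠ l) (hv : IsV G e i j k)
    (hv' : IsV G e i j l) :
    ∃ q q' p k2 l1 : ℝ, ∃ V W : R4, q < 0 ∧ q' < 0 ∧ p < 0 ∧ q * q' - p ^ 2 < 0 ∧ k2 < 0 ∧
      l1 < 0 ∧ V ≠ 0 ∧ (∀ m, br G V (up (e m)) ≤ 0) ∧ br G V (up (e i)) = 0 ∧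
      br G V (up (e j)) = 0 ∧ br G V (up (e k)) = 0 ∧ br G V (up (e l)) = l1 ∧
      (∀ m, br G W (up (e m)) ≤ 0) ∧
      br G W (up (e l)) = 0 ∧ br G W (up (e k)) = k2 ∧
      0 < (g2 G (e i) (e j) : ℝ) ∧ ∀ x y : R4,
        (q * q' - p ^ 2) * g3r G (up (e i)) (up (e j)) x y = (g2 G (e i) (e j) : ℝ) *
          (q' * (br G V x * br G V y) - p * (br G V x * br G W y + br G W x * br G V y) +
            q * (br G W x * br G W y)) := by
  have hg2 := (hP G n e O h hC i j k hv).1
  obtain ⟨V, hV0, hVK, hVi, hVj, hVk, hVV, hneg, hgd, hDr⟩ := vertex_data hP hS h hC hv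
  obtain ⟨W, hW0, hWK, hWi, hWj, hWl, hWW, hneg', hgd', hDr'⟩ := vertex_data hP hS h hC hv'
  have hn : 0 < n := lt_of_le_of_lt (Nat.zero_le _) i.2
  have hl1 : br G V (up (e l)) < 0 := hneg l (fun h0 => hv'.2.2.1 h0.symm)
    (fun h0 => hv'.2.1 h0.symm) hkl.symm
  have hk2 : br G W (up (e k)) < 0 := hneg' k (fun h0 => hv.2.2.1 h0.symm)
    (fun h0 => hv.2.1 h0.symm) hkl
  have hp : br G V W < 0 := h.sheet hC.Oneg hVV.le hWW (cone_neg h hC hn hV0 hVK)
    (cone_neg h hC hn hW0 hWK)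
  have hΔ : br G V V * br G W W - br G V W ^ 2 < 0 := by
    have h1 := h.rcs hVV W
    rcases h1.eq_or_lt with h2 | h2
    · exfalso
      have h3 := h.rcs_eq hVV h2
      have h4 : br G (br G V V • W) (up (e k)) = br G (br G V W • V) (up (e k)) := by rw [h3]
      rw [br_smul_left, br_smul_left, hVk, mul_zero] at h4
      rcases mul_eq_zero.1 h4 with h5 | h5
      · exact hVV.ne h5
      · exact hk2.ne h5
    · linarith
  have hg2' : (0 : ℝ) < (g2 G (e i) (e j) : ℝ) := by exact_mod_cast hg2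
  refine ⟨_, _, _, _, _, V, W, hVV, hWW, hp, hΔ, hk2, hl1, hV0, hVK, hVi, hVj, hVk, rfl, hWK,
    hWl, rfl, hg2', ?_⟩
  intro x y
  have h1 := edge_formula h hVi hVj hWi hWj (by rw [← g2_cast]; exact hg2'.ne') hΔ.ne x y
  rw [← g2_cast] at h1
  exact h1

theorem endsNeg (hP : VertexPosStmt) (hS : VertexStrictStmt) : EndsNegStmt := by
  intro G n e O h hC i j k l hkl hv hv'
  obtain ⟨q, q', p, k2, l1, V, W, hq, hq', hp, hΔ, hk2, hl1, hV0, hVK, hVi, hVj, hVk, hVl, hWK,
    hWl, hWk, hg, hF⟩ := edge_data hP hS h hC hkl hv hv'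
  have h1 := hF (up (e k)) (up (e l))
  rw [hVk, hVl, hWl, hWk] at h1
  have h2 : g3r G (up (e i)) (up (e j)) (up (e k)) (up (e l)) < 0 := by
    have h3 : 0 < k2 * l1 := mul_pos_of_neg_of_neg hk2 hl1
    have h4 : 0 < -p * (k2 * l1) := mul_pos (by linarith) h3
    have h5 : 0 < (g2 G (e i) (e j) : ℝ) * (-p * (k2 * l1)) := mul_pos hg h4
    have h6 : (q * q' - p ^ 2) * g3r G (up (e i)) (up (e j)) (up (e k)) (up (e l)) =
        (g2 G (e i) (e j) : ℝ) * (-p * (k2 * l1)) := by rw [h1]; ring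
    rw [← h6] at h5
    by_contra hcon
    push Not at hcon
    have := mul_nonpos_of_nonpos_of_nonneg hΔ.le hcon
    linarith
  rw [← g3_cast] at h2
  exact_mod_cast h2

theorem step (hP : VertexPosStmt) (hS : VertexStrictStmt) : StepStmt := by
  intro G n e O h hC i j k l hkl hv hv' r hr hs hrr hkr
  obtain ⟨hK, hKV⟩ := nonpos_of_sign hP hS h hC hv (fun h0 => hv'.2.2.1 h0.symm)
    (fun h0 => hv'.2.1 h0.symm) hkl.symm hr hs
  obtain ⟨q, q', p, k2, l1, V, W, hq, hq', hp, hΔ, hk2, hl1, hV0, hVK, hVi, hVj, hVk, hVl, hWK,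
    hWl, hWk, hg, hF⟩ := edge_data hP hS h hC hkl hv hv'
  have hr1 := hKV V hV0 hVK hVi hVj hVk
  have hr2 := hK W hWK
  have e1 := hF (up (e k)) (up (e l))
  have e2 := hF (up (e k)) (up r)
  have e3 := hF (up (e l)) (up (e l))
  have e4 := hF (up r) (up r)
  rw [hVk, hVl, hWl, hWk] at e1
  rw [hVk, hWk] at e2
  rw [hVl, hWl] at e3
  rw [← g3_cast] at e1 e2 e3 e4
  have hkr' : ((g3 G (e i) (e j) (e k) r : ℤ) : ℝ) < 0 := by exact_mod_cast hkr
  set r1 := br G V (up r)
  set r2 := br G W (up r)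
  set Δ := q * q' - p ^ 2 with hΔd
  set g : ℝ := (g2 G (e i) (e j) : ℝ)
  set Gkl : ℝ := ((g3 G (e i) (e j) (e k) (e l) : ℤ) : ℝ) with hGkl
  set Gkr : ℝ := ((g3 G (e i) (e j) (e k) r : ℤ) : ℝ) with hGkr
  set Gll : ℝ := ((g3 G (e i) (e j) (e l) (e l) : ℤ) : ℝ) with hGll
  set Grr : ℝ := ((g3 G (e i) (e j) r r : ℤ) : ℝ) with hGrr
  have goal : Gkl ^ 2 * Grr ≤ Gkr ^ 2 * Gll := by
    have h1 : Δ ^ 3 * (Gkl ^ 2 * Grr - Gkr ^ 2 * Gll) =
        g ^ 3 * (k2 ^ 2 * l1 ^ 2) * (r2 * (p ^ 2 - q * q') * (q * r2 - 2 * p * r1)) := by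
      have : Δ ^ 3 * (Gkl ^ 2 * Grr - Gkr ^ 2 * Gll) = (Δ * Gkl) ^ 2 * (Δ * Grr) -
          (Δ * Gkr) ^ 2 * (Δ * Gll) := by ring
      rw [this, e1, e2, e3, e4]
      ring
    have h2 : q * r2 - 2 * p * r1 ≤ 0 := by
      have h3 : 0 < p * r1 := mul_pos_of_neg_of_neg hp hr1
      have h4 : k2 * (q * r2 - p * r1) > 0 := by
        have h5 : Δ * Gkr = g * (k2 * (q * r2 - p * r1)) := by rw [e2]; ring
        have h6 : 0 < Δ * Gkr := mul_pos_of_neg_of_neg hΔ hkr'
        rw [h5] at h6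
        exact (pos_iff_pos_of_mul_pos h6).1 hg
      have h5 : q * r2 - p * r1 < 0 := by
        by_contra hcon
        push Not at hcon
        have := mul_nonpos_of_nonpos_of_nonneg hk2.le hcon
        linarith
      linarith
    have h3 : 0 ≤ r2 * (p ^ 2 - q * q') * (q * r2 - 2 * p * r1) := by
      have h4 : r2 * (p ^ 2 - q * q') ≤ 0 :=
        mul_nonpos_of_nonpos_of_nonneg hr2 (by linarith)
      exact mul_nonneg_of_nonpos_of_nonpos h4 h2
    have h4 : 0 ≤ Δ ^ 3 * (Gkl ^ 2 * Grr - Gkr ^ 2 * Gll) := by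
      rw [h1]
      exact mul_nonneg (by positivity) h3
    have h5 : Δ ^ 3 < 0 := by
      have : Δ ^ 3 = Δ * Δ ^ 2 := by ring
      rw [this]
      have h6 : 0 < Δ ^ 2 := by
        have := hΔ.ne
        positivity
      exact mul_neg_of_neg_of_pos hΔ h6
    by_contra hcon
    push Not at hcon
    have := mul_neg_of_neg_of_pos h5 (sub_pos.2 hcon)
    linarith
  rw [hGkl, hGkr, hGll, hGrr] at goal
  exact_mod_cast goal

end Pool.Agent.Refl.H92
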